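import Pool.Agent.R433.MD.GalRel
import Pool.Agent.R904.DG.Step

/-! From relations between the numbers of embeddings to a Galois extension. -/

set_option autoImplicit false

namespace Pool.Agent.R333.BR

open NumberField
open Pool.Agent.R433.MD (fx emb fx_eq_emb)
open Pool.Agent.R904

/-- the number of fixed embeddings -/
theorem fx_card {K L F : Type} [Field K] [NumberField K] [Field L] [NumberField L] [Algebra K L]
    [IsGalois K L] [Field F] [Algebra K F] (f : F →ₐ[K] L) (g : Gal(L/K)) :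
    fx f.fieldRange.fixingSubgroup g = (Nat.card {τ : F →ₐ[K] L // ∀ x, g (τ x) = τ x} : ℤ) := by
  rw [fx_eq_emb]
  congr 1
  let σ : F ≃ₐ[K] f.fieldRange := AlgEquiv.ofInjectiveField f
  exact Nat.card_congr
    { toFun := fun τ => ⟨τ.1.comp (σ : F →ₐ[K] f.fieldRange), fun x => τ.2 (σ x)⟩
      invFun := fun τ => ⟨τ.1.comp (σ.symm : f.fieldRange →ₐ[K] F), fun x => τ.2 (σ.symm x)⟩
      left_inv := fun τ => by
        apply Subtype.ext
        ext x
        exact congrArg τ.1 (σ.apply_symm_apply x)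
      right_inv := fun τ => by
        apply Subtype.ext
        ext x
        exact congrArg τ.1 (σ.symm_apply_apply x) }

theorem exists_galois {K : Type} [Field K] [NumberField K] {ι : Type} [Fintype ι]
    (Z : ι → DG.Ext K) (e : ι → ℤ) (m : ℤ) (h : DG.Rel Z e m) :
    ∃ (L : Type) (_ : Field L) (_ : NumberField L) (_ : Algebra K L) (_ : IsGalois K L)
      (f : ∀ i, (Z i).F →ₐ[K] L),
      ∀ g : Gal(L/K), ∑ i, e i * fx (f i).fieldRange.fixingSubgroup g = m := by
  classical
  let Ω := AlgebraicClosure K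
  have hchar : CharZero Ω := charZero_of_injective_algebraMap (algebraMap K Ω).injective
  let L : IntermediateField K Ω := ⨆ i, IntermediateField.normalClosure K (Z i).F Ω
  have hfd : ∀ i, FiniteDimensional K (IntermediateField.normalClosure K (Z i).F Ω) := fun i =>
    inferInstance
  have hfin : FiniteDimensional K L := inferInstance
  have hn : ∀ i, Normal K (IntermediateField.normalClosure K (Z i).F Ω) := fun i => inferInstance
  have hN : Normal K L := inferInstance
  have hgal : IsGalois K L := ⟨⟩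
  have hnf : NumberField L := NumberField.of_module_finite K L
  have hle : ∀ i (τ : (Z i).F →ₐ[K] Ω) (x : (Z i).F), τ x ∈ L := by
    intro i τ x
    have h1 : IntermediateField.normalClosure K (Z i).F Ω ≤ L :=
      le_iSup (fun i => IntermediateField.normalClosure K (Z i).F Ω) i
    exact h1 (τ.fieldRange_le_normalClosure ⟨x, rfl⟩)
  let cod : ∀ i, ((Z i).F →ₐ[K] Ω) → ((Z i).F →ₐ[K] L) := fun i τ =>
    AlgHom.codRestrict τ L.toSubalgebra (hle i τ)
  let emb0 : ∀ i, (Z i).F →ₐ[K] Ω := fun i => IsAlgClosed.lift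
  refine ⟨L, inferInstance, hnf, inferInstance, hgal, fun i => cod i (emb0 i), fun g => ?_⟩
  let G : Ω ≃ₐ[K] Ω := g.liftNormal Ω
  have hG : ∀ x : L, G (x : Ω) = ((g x : L) : Ω) := fun x => g.liftNormal_commutes Ω x
  have h1 := h Ω (algebraMap K Ω) (G : Ω ≃+* Ω) (by
    ext x
    exact G.commutes x)
  rw [← h1]
  refine Finset.sum_congr rfl fun i _ => ?_
  rw [fx_card]
  congr 2
  unfold DG.Ext.cnt DG.fx
  refine Nat.card_congr
    { toFun := fun τ => ⟨(L.val.comp τ.1 : (Z i).F →ₐ[K] Ω).toRingHom, ?_, ?_⟩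
      invFun := fun σ => ⟨cod i { σ.1 with
        commutes' := fun x => congrArg (fun f : K →+* Ω => f x) σ.2.1 }, ?_⟩
      left_inv := fun τ => ?_
      right_inv := fun σ => ?_ }
  · ext x
    exact (L.val.comp τ.1).commutes x
  · ext x
    change G ((τ.1 x : L) : Ω) = ((τ.1 x : L) : Ω)
    rw [hG, τ.2]
  · intro x
    apply Subtype.ext
    rw [← hG]
    exact congrArg (fun f : (Z i).F →+* Ω => f x) σ.2.2
  · apply Subtype.ext
    ext x
    rfl
  · apply Subtype.ext
    ext x
    rfl

/-- the family of extensions of large degree -/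
theorem exists_fam (K : Type) [Field K] [NumberField K] {m n : ℕ} (hm : 0 < m) (hn : 0 < n) :
    ∃ (r : ℕ) (Z : Fin r → Pool.Agent.R433.MD.Ext K) (e : Fin r → ℤ) (_ : Nonempty (Fin r)),
      (∀ i, (m ∣ Module.finrank K (Z i).F ∧ Module.finrank K (Z i).F ∣ m ^ 2) ∨
        (n ∣ Module.finrank K (Z i).F ∧ Module.finrank K (Z i).F ∣ n ^ 2)) ∧
      ∃ (L : Type) (_ : Field L) (_ : NumberField L) (_ : Algebra K L) (_ : IsGalois K L)
        (f : ∀ i, (Z i).F →ₐ[K] L),
        ∀ g : Gal(L/K), ∑ i, e i * fx (f i).fieldRange.fixingSubgroup g = (Nat.gcd m n : ℕ) := by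
  obtain ⟨r, Z, e, hd, hrel⟩ := DG.rel_gcd hm hn K
  obtain ⟨L, i1, i2, i3, i4, f, hf⟩ := exists_galois Z e _ hrel
  have hne : Nonempty (Fin r) := by
    by_contra h
    rw [not_nonempty_iff] at h
    have h1 := hf 1
    rw [Finset.univ_eq_empty, Finset.sum_empty] at h1
    have h2 := Nat.gcd_pos_of_pos_left n hm
    omega
  exact ⟨r, fun i => ⟨(Z i).F⟩, e, hne, hd, L, i1, i2, i3, i4, f, hf⟩

end Pool.Agent.R333.BR
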