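import Pool.Agent.R433.MD.GalRel
import Pool.Agent.R333.BR.Bad

/-! Relations between the `L`-series of an elliptic curve over number fields, with control of the
order of the correcting factor at `s = 1`. -/

set_option autoImplicit false

namespace Pool.Agent.R333.BR

open NumberField IsDedekindDomain Complex Filter Topology
open Pool.Agent.H921R2.TatePole (nm two_le_nm nm_summable)
open Pool.Agent.H341R2.EC
open Pool.Agent.H341R2 (finite_v card_v)
open Pool.Agent.R433.MD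

section
variable {K : Type} [Field K] [NumberField K]

/-- the local factors are not zero at `s = 1` -/
theorem lf_one (V : HeightOneSpectrum (𝓞 K) → WeierstrassCurve (𝓞 K))
    (v : HeightOneSpectrum (𝓞 K)) : lf V 1 v ≠ 0 := by
  classical
  have hq : ((nm v : ℕ) : ℂ) ≠ 0 := by exact_mod_cast (nm_pos v).ne'
  have h1 : ((nm v : ℕ) : ℂ) * lf V 1 v = (aff (red v (V v)) : ℂ) + dlt V v := by
    unfold lf trc
    have e1 : (1 : ℂ) - 2 * 1 = -1 := by norm_num
    rw [e1, Complex.cpow_neg_one]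
    push_cast
    field_simp
    ring
  intro h0
  rw [h0, mul_zero] at h1
  unfold dlt at h1
  split_ifs at h1 with hΔ
  · have hfin : Finite (𝓞 K ⧸ v.asIdeal) := finite_v v
    have h2 : (red v (V v)).Δ = 0 := by
      rw [red, WeierstrassCurve.map_Δ, Ideal.Quotient.eq_zero_iff_mem]
      exact hΔ
    have h3 := aff_pos (red v (V v)) h2
    rw [add_zero] at h1
    have h4 : aff (red v (V v)) = 0 := by exact_mod_cast h1.symm
    omega
  · have h2 : (aff (red v (V v)) : ℂ) + 1 = ((aff (red v (V v)) + 1 : ℕ) : ℂ) := by push_cast; rfl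
    rw [h2] at h1
    exact absurd h1.symm (Nat.cast_ne_zero.2 (Nat.succ_ne_zero _))

/-- **Relations between L-series.** -/
theorem relation_one {ι : Type} [Fintype ι] (F : ι → Type) [∀ i, Field (F i)]
    [∀ i, NumberField (F i)] [∀ i, Algebra K (F i)] (a b : ι → ℕ) {D : 𝓞 K} (hD0 : D ≠ 0)
    (hD : ∀ (k : Type) [Field k] [Finite k] (φ : 𝓞 K →+* k), φ D ≠ 0 →
      ∑ i, a i * nh (F i) φ = ∑ i, b i * nh (F i) φ)
    (E : WeierstrassCurve K) (hE : E.IsElliptic)
    (V : ∀ i, HeightOneSpectrum (𝓞 (F i)) → WeierstrassCurve (𝓞 (F i)))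
    (hV : ∀ i w, IsMinAt (E.map (algebraMap K (F i))) w (V i w)) :
    ∃ R : ℂ → ℂ, MeromorphicOn R Set.univ ∧ meromorphicOrderAt R 1 = 0 ∧
      ∀ s : ℂ, 3 / 2 < s.re → R s ≠ 0 ∧
      ∏ i, (∏' w, (lf (V i) s w)⁻¹) ^ a i = R s * ∏ i, (∏' w, (lf (V i) s w)⁻¹) ^ b i := by
  classical
  obtain ⟨W, hW, hWΔ⟩ := exists_model E hE
  have h6 : (6 : 𝓞 K) ≠ 0 := by norm_num
  have hbad : {v : HeightOneSpectrum (𝓞 K) | 6 * W.Δ * D ∈ v.asIdeal}.Finite :=
    finite_mem (mul_ne_zero (mul_ne_zero h6 hWΔ) hD0)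
  set S := hbad.toFinset with hS
  -- local products
  let A : (ι → ℕ) → ℂ → HeightOneSpectrum (𝓞 K) → ℂ := fun e s v =>
    ∏ i, (∏ w : Fib (F i) v, (lf (V i) s w.1)⁻¹) ^ e i
  have hprod : ∀ (e : ι → ℕ) (s : ℂ), 3 / 2 < s.re →
      HasProd (A e s) (∏ i, (∏' w, (lf (V i) s w)⁻¹) ^ e i) := by
    intro e s hs
    refine hasProd_prod fun i _ => ?_
    have hEi : (E.map (algebraMap K (F i))).IsElliptic := inferInstance
    exact hasProd_pow (hasProd_fib (hasProd_lf _ hEi (V i) (hV i) hs).1) (e i)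
  have hgood : ∀ (s : ℂ) (v : HeightOneSpectrum (𝓞 K)), v ∉ S → A a s v = A b s v := by
    intro s v hv
    have hv' : 6 * W.Δ * D ∉ v.asIdeal := fun h => hv (hbad.mem_toFinset.2 h)
    have hvD : D ∉ v.asIdeal := fun h => hv' (v.asIdeal.mul_mem_left _ h)
    have hvΔ : W.Δ ∉ v.asIdeal := fun h =>
      hv' (v.asIdeal.mul_mem_right _ (v.asIdeal.mul_mem_left _ h))
    have hv6 : (6 : 𝓞 K) ∉ v.asIdeal := fun h =>
      hv' (v.asIdeal.mul_mem_right _ (v.asIdeal.mul_mem_right _ h))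
    obtain ⟨g, hg⟩ := exists_count v W
    let G : ℕ → ℂ := fun n => (1 - (((nm v : ℤ) ^ n - (g n : ℤ) : ℤ) : ℂ) *
      ((nm v ^ n : ℕ) : ℂ) ^ (-s) + ((nm v ^ n : ℕ) : ℂ) ^ (1 - 2 * s))⁻¹
    have hA : ∀ e : ι → ℕ, A e s v = ∏ i, (∏ w : Fib (F i) v, G (fdeg w)) ^ e i := by
      intro e
      refine Finset.prod_congr rfl fun i _ => ?_
      congr 1
      refine Finset.prod_congr rfl fun w _ => ?_
      rw [lf_good hW hv6 hvΔ hg (hV i) w s]
    rw [hA, hA]
    refine comb (fun i => Fib (F i) v) (fun i w => fdeg w) (fun i w => fdeg_pos w) a b ?_ G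
    intro m hm
    obtain ⟨k, iF, iFin, iA, hk⟩ := exists_ext (𝓞 K ⧸ v.asIdeal) hm
    have h1 := hD k (base v k) (by
      rw [base, RingHom.comp_apply]
      intro h
      rw [map_eq_zero_iff _ (algebraMap (𝓞 K ⧸ v.asIdeal) k).injective,
        Ideal.Quotient.eq_zero_iff_mem] at h
      exact hvD h)
    simp only [nh_eq, hk] at h1
    exact h1
  -- the finite parts
  have hmer : ∀ e : ι → ℕ, MeromorphicOn (fun s => ∏ v ∈ S, A e s v) Set.univ := by
    intro e
    apply MeromorphicOn.fun_prod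
    intro v _
    change MeromorphicOn (fun s => ∏ i, (∏ w : Fib (F i) v, (lf (V i) s w.1)⁻¹) ^ e i) Set.univ
    apply MeromorphicOn.fun_prod
    intro i _
    apply MeromorphicOn.fun_pow
    apply MeromorphicOn.fun_prod
    intro w _
    apply MeromorphicOn.fun_inv
    intro z _
    exact ((differentiable_lf (V i) w.1).analyticAt z).meromorphicAt
  have hne : ∀ (e : ι → ℕ) (s : ℂ), 3 / 2 < s.re → ∏ v ∈ S, A e s v ≠ 0 := by
    intro e s hs
    refine Finset.prod_ne_zero_iff.2 fun v _ => Finset.prod_ne_zero_iff.2 fun i _ => ?_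
    refine pow_ne_zero _ (Finset.prod_ne_zero_iff.2 fun w _ => inv_ne_zero (lf_ne_zero _ hs _))
  have hne1 : ∀ (e : ι → ℕ), ∏ v ∈ S, A e 1 v ≠ 0 := by
    intro e
    refine Finset.prod_ne_zero_iff.2 fun v _ => Finset.prod_ne_zero_iff.2 fun i _ => ?_
    refine pow_ne_zero _ (Finset.prod_ne_zero_iff.2 fun w _ => inv_ne_zero (lf_one _ _))
  have han : ∀ e : ι → ℕ, AnalyticAt ℂ (fun s => ∏ v ∈ S, A e s v) 1 := by
    intro e
    apply Finset.analyticAt_fun_prod
    intro v _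
    change AnalyticAt ℂ (fun s => ∏ i, (∏ w : Fib (F i) v, (lf (V i) s w.1)⁻¹) ^ e i) 1
    apply Finset.analyticAt_fun_prod
    intro i _
    apply AnalyticAt.fun_pow
    apply Finset.analyticAt_fun_prod
    intro w _
    exact ((differentiable_lf (V i) w.1).analyticAt 1).fun_inv (lf_one _ _)
  refine ⟨fun s => (∏ v ∈ S, A a s v) / (∏ v ∈ S, A b s v), (hmer a).fun_div (hmer b), ?_,
    fun s hs => ⟨div_ne_zero (hne a s hs) (hne b s hs), ?_⟩⟩
  · have h1 : AnalyticAt ℂ (fun s => (∏ v ∈ S, A a s v) / (∏ v ∈ S, A b s v)) 1 :=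
      (han a).fun_div (han b) (hne1 b)
    rw [h1.meromorphicOrderAt_eq, h1.analyticOrderAt_eq_zero.2 (div_ne_zero (hne1 a) (hne1 b))]
    rfl
  have h1 := compare (hprod a s hs) (hprod b s hs) S (hgood s)
  have h2 := hne b s hs
  rw [div_mul_eq_mul_div, eq_div_iff h2, h1, mul_comm]

/-- isomorphic fields -/
theorem nh_congr {F F' : Type} [Field F] [NumberField F] [Algebra K F] [Field F'] [NumberField F']
    [Algebra K F'] (σ : F ≃ₐ[K] F') {k : Type} [Field k] (φ : 𝓞 K →+* k) : nh F φ = nh F' φ := by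
  let τ : 𝓞 F ≃+* 𝓞 F' := RingOfIntegers.mapRingEquiv (σ : F ≃+* F')
  have hτ : (τ : 𝓞 F →+* 𝓞 F').comp (algebraMap (𝓞 K) (𝓞 F)) = algebraMap (𝓞 K) (𝓞 F') := by
    refine RingHom.ext fun x => RingOfIntegers.coe_injective (K := F') ?_
    exact σ.commutes (x : K)
  have hτ' : (τ.symm : 𝓞 F' →+* 𝓞 F).comp (algebraMap (𝓞 K) (𝓞 F')) = algebraMap (𝓞 K) (𝓞 F) := by
    refine RingHom.ext fun x => RingOfIntegers.coe_injective (K := F) ?_
    exact σ.symm.commutes (x : K)
  refine Nat.card_congr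
    { toFun := fun ψ => ⟨ψ.1.comp (τ.symm : 𝓞 F' →+* 𝓞 F), by
        rw [RingHom.comp_assoc, hτ', ψ.2]⟩
      invFun := fun ψ => ⟨ψ.1.comp (τ : 𝓞 F →+* 𝓞 F'), by
        rw [RingHom.comp_assoc, hτ, ψ.2]⟩
      left_inv := fun ψ => ?_
      right_inv := fun ψ => ?_ }
  · apply Subtype.ext
    refine RingHom.ext fun x => ?_
    exact congrArg ψ.1 (τ.symm_apply_apply x)
  · apply Subtype.ext
    refine RingHom.ext fun x => ?_
    exact congrArg ψ.1 (τ.apply_symm_apply x)

variable {L : Type} [Field L] [NumberField L] [Algebra K L] [IsGalois K L]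

/-- relations of permutation characters give relations of L-series -/
theorem L_rel {ι : Type} [Fintype ι] (Z : ι → Ext K) (f : ∀ i, (Z i).F →ₐ[K] L) (e : ι → ℤ)
    (m : ℕ) (h : ∀ g : Gal(L/K), ∑ i, e i * fx (f i).fieldRange.fixingSubgroup g = m)
    (E : WeierstrassCurve K) (hE : E.IsElliptic)
    (V0 : HeightOneSpectrum (𝓞 K) → WeierstrassCurve (𝓞 K)) (hV0 : ∀ v, IsMinAt E v (V0 v))
    (VZ : ∀ i, HeightOneSpectrum (𝓞 (Z i).F) → WeierstrassCurve (𝓞 (Z i).F))
    (hVZ : ∀ i w, IsMinAt (E.map (algebraMap K (Z i).F)) w (VZ i w)) :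
    ∃ R : ℂ → ℂ, MeromorphicOn R Set.univ ∧ meromorphicOrderAt R 1 = 0 ∧
      ∀ s : ℂ, 3 / 2 < s.re → R s ≠ 0 ∧ LL V0 s ^ m = R s * ∏ i, LL (VZ i) s ^ e i := by
  classical
  obtain ⟨D, hD0, hD⟩ := frob_count K L
  let X : Option ι → Ext K := fun i =>
    match i with
    | none => Ext.self K
    | some i => Z i
  let a : Option ι → ℕ := fun i =>
    match i with
    | none => 0
    | some i => (e i).toNat
  let b : Option ι → ℕ := fun i =>
    match i with
    | none => m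
    | some i => (-e i).toNat
  let V : ∀ i, HeightOneSpectrum (𝓞 (X i).F) → WeierstrassCurve (𝓞 (X i).F) := fun i =>
    match i with
    | none => V0
    | some i => VZ i
  have hV : ∀ i w, IsMinAt (E.map (algebraMap K (X i).F)) w (V i w) := by
    rintro (_ | i)
    · intro w
      have e : E.map (algebraMap K (Ext.self K).F) = E := E.map_id
      change IsMinAt (E.map (algebraMap K (Ext.self K).F)) w (V0 w)
      rw [e]
      exact hV0 w
    · exact hVZ i
  obtain ⟨R, hR, hR1, hRL⟩ := relation_one (fun i => (X i).F) a b hD0 (by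
    intro k _ _ φ hφ
    obtain ⟨g, hg⟩ := hD k φ hφ
    simp only [Fintype.sum_option]
    have h2 := (nh_self K φ).2
    have h3 : nh (X none).F φ = 1 := h2
    have h4 : ∀ i : ι, nh (X (some i)).F φ =
        Nat.card {c : Gal(L/K) ⧸ (f i).fieldRange.fixingSubgroup // g • c = c} := fun i => by
      rw [← hg (f i).fieldRange]
      exact nh_congr (AlgEquiv.ofInjectiveField (f i)) φ
    simp only [a, b, zero_add, h3, mul_one, h4]
    have h5 := h g
    have h6 : ((∑ i, (e i).toNat * Nat.card {c : Gal(L/K) ⧸ (f i).fieldRange.fixingSubgroup //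
        g • c = c} : ℕ) : ℤ) = ((m + ∑ i, (-e i).toNat *
        Nat.card {c : Gal(L/K) ⧸ (f i).fieldRange.fixingSubgroup // g • c = c} : ℕ) : ℤ) := by
      push_cast
      rw [← h5, ← Finset.sum_add_distrib]
      refine Finset.sum_congr rfl fun i _ => ?_
      have h7 := Int.toNat_sub_toNat_neg (e i)
      rw [fx]
      linear_combination (Nat.card {c : Gal(L/K) ⧸ (f i).fieldRange.fixingSubgroup //
        g • c = c} : ℤ) * h7
    exact_mod_cast h6) E hE V hV
  refine ⟨fun s => (R s)⁻¹, hR.fun_inv, ?_, fun s hs => ?_⟩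
  · have h1 : meromorphicOrderAt (R⁻¹) 1 = 0 := by
      rw [meromorphicOrderAt_inv, hR1, neg_zero]
    exact h1
  obtain ⟨h1, h2⟩ := hRL s hs
  refine ⟨inv_ne_zero h1, ?_⟩
  simp only [Fintype.prod_option] at h2
  have h3 : LL V0 s ^ 0 * ∏ i, LL (VZ i) s ^ (e i).toNat =
      R s * (LL V0 s ^ m * ∏ i, LL (VZ i) s ^ (-e i).toNat) := h2
  have hne : ∀ i, LL (VZ i) s ≠ 0 := fun i =>
    LL_ne_zero inferInstance (hVZ i) hs
  rw [pow_zero, one_mul] at h3
  have h4 : ∏ i, LL (VZ i) s ^ e i =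
      (∏ i, LL (VZ i) s ^ (e i).toNat) / ∏ i, LL (VZ i) s ^ (-e i).toNat := by
    rw [← Finset.prod_div_distrib]
    refine Finset.prod_congr rfl fun i _ => ?_
    conv_lhs => rw [← Int.toNat_sub_toNat_neg (e i)]
    rw [zpow_sub₀ (hne _), zpow_natCast, zpow_natCast]
  have h5 : ∏ i, LL (VZ i) s ^ (-e i).toNat ≠ 0 :=
    Finset.prod_ne_zero_iff.2 fun i _ => pow_ne_zero _ (hne _)
  rw [h4, h3]
  field_simp

end

end Pool.Agent.R333.BR
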