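import Pool.Agent.R333.BR.Tw
import Pool.Agent.R333.BR.LRel

/-! Permutation relations count the homomorphisms fixed by an endomorphism. -/

set_option autoImplicit false

namespace Pool.Agent.R333.BR

open NumberField Polynomial
open Pool.Agent.R433.MD (fx Ext)

/-- the number of the homomorphisms `𝓞 F → Ω` above `φ` fixed by `Fr` -/
noncomputable def nf {K : Type} [Field K] [NumberField K] (F : Type) [Field F] [NumberField F]
    [Algebra K F] {Ω : Type} [Field Ω] (φ : 𝓞 K →+* Ω) (Fr : Ω →+* Ω) : ℕ :=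
  Nat.card {ψ : 𝓞 F →+* Ω // ψ.comp (algebraMap (𝓞 K) (𝓞 F)) = φ ∧ Fr.comp ψ = ψ}

/-- a class function -/
noncomputable def th {K L : Type} [Field K] [NumberField K] [Field L] [NumberField L] [Algebra K L]
    {Ω : Type} [Field Ω] (φ : 𝓞 K →+* Ω) (Fr : Ω →+* Ω) (g : Gal(L/K)) : ℕ :=
  Nat.card {Ψ : 𝓞 L →+* Ω // Ψ.comp (algebraMap (𝓞 K) (𝓞 L)) = φ ∧ Fr.comp Ψ = Ψ.comp (ri g)}

theorem nf_congr {K F F' : Type} [Field K] [NumberField K] [Field F] [NumberField F] [Algebra K F]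
    [Field F'] [NumberField F'] [Algebra K F'] (σ : F ≃ₐ[K] F') {Ω : Type} [Field Ω]
    (φ : 𝓞 K →+* Ω) (Fr : Ω →+* Ω) : nf F φ Fr = nf F' φ Fr := by
  let τ : 𝓞 F ≃+* 𝓞 F' := RingOfIntegers.mapRingEquiv (σ : F ≃+* F')
  have hτ : (τ : 𝓞 F →+* 𝓞 F').comp (algebraMap (𝓞 K) (𝓞 F)) = algebraMap (𝓞 K) (𝓞 F') := by
    refine RingHom.ext fun x => RingOfIntegers.coe_injective (K := F') ?_
    exact σ.commutes (x : K)
  have hτ' : (τ.symm : 𝓞 F' →+* 𝓞 F).comp (algebraMap (𝓞 K) (𝓞 F')) = algebraMap (𝓞 K) (𝓞 F) := by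
    refine RingHom.ext fun x => RingOfIntegers.coe_injective (K := F) ?_
    exact σ.symm.commutes (x : K)
  refine Nat.card_congr
    { toFun := fun ψ => ⟨ψ.1.comp (τ.symm : 𝓞 F' →+* 𝓞 F), by
        rw [RingHom.comp_assoc, hτ', ψ.2.1], by rw [← RingHom.comp_assoc, ψ.2.2]⟩
      invFun := fun ψ => ⟨ψ.1.comp (τ : 𝓞 F →+* 𝓞 F'), by
        rw [RingHom.comp_assoc, hτ, ψ.2.1], by rw [← RingHom.comp_assoc, ψ.2.2]⟩
      left_inv := fun ψ => ?_
      right_inv := fun ψ => ?_ }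
  · apply Subtype.ext
    refine RingHom.ext fun x => ?_
    exact congrArg ψ.1 (τ.symm_apply_apply x)
  · apply Subtype.ext
    refine RingHom.ext fun x => ?_
    exact congrArg ψ.1 (τ.apply_symm_apply x)

theorem nf_self {K : Type} [Field K] [NumberField K] {Ω : Type} [Field Ω]
    (φ : 𝓞 K →+* Ω) (Fr : Ω →+* Ω) (h : Fr.comp φ = φ) : nf K φ Fr = 1 := by
  unfold nf
  rw [Nat.card_eq_one_iff_unique]
  refine ⟨⟨fun a b => Subtype.ext ?_⟩, ⟨⟨φ, RingHom.ext fun x => rfl, h⟩⟩⟩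
  exact RingHom.ext fun x => (RingHom.congr_fun a.2.1 x).trans (RingHom.congr_fun b.2.1 x).symm

section fixed

variable {K L : Type} [Field K] [NumberField K] [Field L] [NumberField L] [Algebra K L]
variable {Ω : Type} [Field Ω] (φ : 𝓞 K →+* Ω) (Fr : Ω →+* Ω)

omit [NumberField K] [NumberField L] in
theorem ri_base (g : Gal(L/K)) :
    (ri g).comp (algebraMap (𝓞 K) (𝓞 L)) = algebraMap (𝓞 K) (𝓞 L) := by
  refine RingHom.ext fun x => RingOfIntegers.coe_injective (K := L) ?_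
  exact g.commutes (x : K)

omit [NumberField K] [NumberField L] in
theorem ri_mid (F : IntermediateField K L) (g : Gal(L/K)) (hg : g ∈ F.fixingSubgroup) :
    (ri g).comp (algebraMap (𝓞 F) (𝓞 L)) = algebraMap (𝓞 F) (𝓞 L) := by
  refine RingHom.ext fun x => RingOfIntegers.coe_injective (K := L) ?_
  exact (IntermediateField.mem_fixingSubgroup_iff F g).1 hg _ (x : F).2

theorem th_conj (x g : Gal(L/K)) : th φ Fr (x * g * x⁻¹) = th φ Fr g := by
  refine Nat.card_congr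
    { toFun := fun Ψ => ⟨Ψ.1.comp (ri x), ?_, ?_⟩
      invFun := fun Ψ => ⟨Ψ.1.comp (ri x⁻¹), ?_, ?_⟩
      left_inv := fun Ψ => ?_
      right_inv := fun Ψ => ?_ }
  · rw [RingHom.comp_assoc, ri_base, Ψ.2.1]
  · rw [← RingHom.comp_assoc, Ψ.2.2, RingHom.comp_assoc, RingHom.comp_assoc, ← ri_mul, ← ri_mul]
    congr 2
    group
  · rw [RingHom.comp_assoc, ri_base, Ψ.2.1]
  · rw [← RingHom.comp_assoc, Ψ.2.2, RingHom.comp_assoc, RingHom.comp_assoc, ← ri_mul, ← ri_mul]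
    congr 2
    group
  · apply Subtype.ext
    change (Ψ.1.comp (ri x)).comp (ri x⁻¹) = Ψ.1
    rw [RingHom.comp_assoc, ← ri_mul, mul_inv_cancel, ri_one, RingHom.comp_id]
  · apply Subtype.ext
    change (Ψ.1.comp (ri x⁻¹)).comp (ri x) = Ψ.1
    rw [RingHom.comp_assoc, ← ri_mul, inv_mul_cancel, ri_one, RingHom.comp_id]

variable [IsGalois K L]

theorem finite_over : Finite {Ψ : 𝓞 L →+* Ω // Ψ.comp (algebraMap (𝓞 K) (𝓞 L)) = φ} := by
  classical
  by_cases hne : Nonempty {Ψ : 𝓞 L →+* Ω // Ψ.comp (algebraMap (𝓞 K) (𝓞 L)) = φ}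
  · obtain ⟨Ψ0⟩ := hne
    refine Finite.of_surjective (fun g : Gal(L/K) =>
      (⟨Ψ0.1.comp (ri g), by rw [RingHom.comp_assoc, ri_base, Ψ0.2]⟩ :
        {Ψ : 𝓞 L →+* Ω // Ψ.comp (algebraMap (𝓞 K) (𝓞 L)) = φ})) fun Ψ => ?_
    obtain ⟨σ, -, hσ⟩ := exists_tw (K := K) (⊥ : IntermediateField K L) Ψ0.1 Ψ.1 (by
      intro x hx
      obtain ⟨c, hc⟩ := IntermediateField.mem_bot.1 hx
      have hi : IsIntegral ℤ c := by
        have h1 : IsIntegral ℤ (algebraMap K L c) := by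
          rw [hc]
          exact x.2
        exact (isIntegral_algebraMap_iff (algebraMap K L).injective).1 h1
      have e : x = algebraMap (𝓞 K) (𝓞 L) (⟨c, hi⟩ : 𝓞 K) := by
        apply RingOfIntegers.coe_injective (K := L)
        exact hc.symm
      rw [e]
      exact (RingHom.congr_fun Ψ0.2 _).trans (RingHom.congr_fun Ψ.2 _).symm)
    exact ⟨σ, Subtype.ext hσ.symm⟩
  · rw [not_nonempty_iff] at hne
    infer_instance

variable [IsAlgClosed Ω]

/-- twisted Burnside lemma -/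
theorem nf_mul (F : IntermediateField K L) :
    Nat.card F.fixingSubgroup * nf F φ Fr = ∑ᶠ h : F.fixingSubgroup, th φ Fr (h : Gal(L/K)) := by
  classical
  let H := F.fixingSubgroup
  let _ : Fintype H := Fintype.ofFinite _
  have hX := finite_over (L := L) φ
  have htow : (algebraMap (𝓞 F) (𝓞 L)).comp (algebraMap (𝓞 K) (𝓞 F)) = algebraMap (𝓞 K) (𝓞 L) := by
    refine RingHom.ext fun x => RingOfIntegers.coe_injective (K := L) ?_
    rfl
  -- the set `Y` of the restrictions fixed by `Fr`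
  let Y : Type := {ψ : 𝓞 F →+* Ω // ψ.comp (algebraMap (𝓞 K) (𝓞 F)) = φ ∧ Fr.comp ψ = ψ}
  have hlift : ∀ y : 𝓞 F →+* Ω, ∃ Ψ : 𝓞 L →+* Ω, Ψ.comp (algebraMap (𝓞 F) (𝓞 L)) = y :=
    fun y => exists_lift y
  have hYfin : Finite Y := by
    choose l hl using hlift
    refine Finite.of_injective (fun y : Y => (⟨l y.1, by
      rw [← htow, ← RingHom.comp_assoc, hl, y.2.1]⟩ :
      {Ψ : 𝓞 L →+* Ω // Ψ.comp (algebraMap (𝓞 K) (𝓞 L)) = φ})) fun y z hyz => ?_
    have h1 : l y.1 = l z.1 := congrArg Subtype.val hyz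
    apply Subtype.ext
    rw [← hl y.1, h1, hl]
  let _ : Fintype Y := Fintype.ofFinite _
  let P : Type := {q : {Ψ : 𝓞 L →+* Ω // Ψ.comp (algebraMap (𝓞 K) (𝓞 L)) = φ} × H //
    Fr.comp q.1.1 = q.1.1.comp (ri (q.2 : Gal(L/K)))}
  have hPfin : Finite P := by
    unfold P
    infer_instance
  -- first count
  have h1 : Nat.card P = ∑ h : H, th φ Fr (h : Gal(L/K)) := by
    have e1 : Nat.card P = ∑ h : H, Nat.card {p : P // p.1.2 = h} := by
      rw [← Nat.card_sigma]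
      exact Nat.card_congr (Equiv.sigmaFiberEquiv fun p : P => p.1.2).symm
    rw [e1]
    refine Finset.sum_congr rfl fun h _ => ?_
    refine Nat.card_congr
      { toFun := fun p => ⟨p.1.1.1.1, p.1.1.1.2, p.1.2.trans
          (congrArg (fun h' : H => p.1.1.1.1.comp (ri (h' : Gal(L/K)))) p.2)⟩
        invFun := fun Ψ => ⟨⟨(⟨Ψ.1, Ψ.2.1⟩, h), Ψ.2.2⟩, rfl⟩
        left_inv := fun p => ?_
        right_inv := fun Ψ => rfl }
    apply Subtype.ext
    apply Subtype.ext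
    refine Prod.ext rfl ?_
    exact p.2.symm
  -- second count
  let π : P → Y := fun p => ⟨p.1.1.1.comp (algebraMap (𝓞 F) (𝓞 L)), by
    rw [RingHom.comp_assoc, htow, p.1.1.2], by
    rw [← RingHom.comp_assoc, p.2, RingHom.comp_assoc, ri_mid F _ p.1.2.2]⟩
  have h2 : ∀ y : Y, Nat.card {p : P // π p = y} = Nat.card H := by
    intro y
    let O : Type := {Ψ : 𝓞 L →+* Ω // Ψ.comp (algebraMap (𝓞 F) (𝓞 L)) = y.1}
    let _ : MulAction H O :=
      { smul := fun h Ψ => ⟨Ψ.1.comp (ri ((h⁻¹ : H) : Gal(L/K))), by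
          rw [RingHom.comp_assoc, ri_mid F _ (h⁻¹).2, Ψ.2]⟩
        one_smul := fun Ψ => by
          apply Subtype.ext
          change Ψ.1.comp (ri (((1 : H)⁻¹ : H) : Gal(L/K))) = Ψ.1
          rw [inv_one, OneMemClass.coe_one, ri_one, RingHom.comp_id]
        mul_smul := fun g h Ψ => by
          apply Subtype.ext
          change Ψ.1.comp (ri (((g * h : H)⁻¹ : H) : Gal(L/K))) =
            (Ψ.1.comp (ri ((h⁻¹ : H) : Gal(L/K)))).comp (ri ((g⁻¹ : H) : Gal(L/K)))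
          rw [RingHom.comp_assoc, ← ri_mul, mul_inv_rev]
          rfl }
    have hsmul : ∀ (h : H) (Ψ : O), (h • Ψ).1 = Ψ.1.comp (ri ((h⁻¹ : H) : Gal(L/K))) :=
      fun _ _ => rfl
    have htr : MulAction.IsPretransitive H O := by
      constructor
      intro Ψ Ψ'
      obtain ⟨σ, hσ, hσ'⟩ := exists_tw (K := K) F Ψ.1 Ψ'.1 (by
        intro x hx
        have hi : IsIntegral ℤ (⟨x, hx⟩ : F) := by
          have h1 : IsIntegral ℤ (algebraMap F L ⟨x, hx⟩) := x.2
          exact (isIntegral_algebraMap_iff (algebraMap F L).injective).1 h1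
        have e : x = algebraMap (𝓞 F) (𝓞 L) (⟨⟨x, hx⟩, hi⟩ : 𝓞 F) := by
          apply RingOfIntegers.coe_injective (K := L)
          rfl
        rw [e]
        exact (RingHom.congr_fun Ψ.2 _).trans (RingHom.congr_fun Ψ'.2 _).symm)
      refine ⟨(⟨σ, hσ⟩ : H)⁻¹, Subtype.ext ?_⟩
      rw [hsmul, inv_inv, hσ']
    have hne : Nonempty O := by
      obtain ⟨Ψ, hΨ⟩ := hlift y.1
      exact ⟨⟨Ψ, hΨ⟩⟩
    let f : O → O := fun Ψ => ⟨Fr.comp Ψ.1, by rw [RingHom.comp_assoc, Ψ.2, y.2.2]⟩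
    rw [← tw_count H O f]
    refine Nat.card_congr
      { toFun := fun p => ⟨(⟨p.1.1.1.1, congrArg Subtype.val p.2⟩, p.1.1.2⁻¹), ?_⟩
        invFun := fun q => ⟨⟨(⟨q.1.1.1, ?_⟩, q.1.2⁻¹), ?_⟩, ?_⟩
        left_inv := fun p => ?_
        right_inv := fun q => ?_ }
    · apply Subtype.ext
      rw [hsmul, inv_inv]
      exact p.1.2.symm
    · rw [← htow, ← RingHom.comp_assoc, q.1.1.2, y.2.1]
    · have h3 := congrArg Subtype.val q.2
      rw [hsmul] at h3
      exact h3.symm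
    · apply Subtype.ext
      exact q.1.1.2
    · apply Subtype.ext
      apply Subtype.ext
      refine Prod.ext rfl ?_
      exact inv_inv _
    · apply Subtype.ext
      refine Prod.ext rfl ?_
      exact inv_inv _
  have h3 : Nat.card P = Nat.card Y * Nat.card H := by
    have e1 : Nat.card P = ∑ y : Y, Nat.card {p : P // π p = y} := by
      rw [← Nat.card_sigma]
      exact Nat.card_congr (Equiv.sigmaFiberEquiv π).symm
    rw [e1, Finset.sum_congr rfl fun y _ => h2 y, Finset.sum_const, Finset.card_univ, smul_eq_mul,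
      Nat.card_eq_fintype_card (α := Y)]
  rw [finsum_eq_sum_of_fintype, ← h1, h3, mul_comm]
  rfl

theorem nf_mul' {F : Type} [Field F] [NumberField F] [Algebra K F] (f : F →ₐ[K] L) :
    (Nat.card Gal(L/K) : ℚ) * nf F φ Fr =
      ∑ᶠ g : Gal(L/K), (fx f.fieldRange.fixingSubgroup g : ℚ) * th φ Fr g := by
  classical
  let _ : Fintype Gal(L/K) := Fintype.ofFinite _
  have h1 := nf_mul φ Fr f.fieldRange
  rw [← nf_congr (AlgEquiv.ofInjectiveField f) φ Fr] at h1
  have h2 : (Nat.card f.fieldRange.fixingSubgroup : ℚ) ≠ 0 := by exact_mod_cast Nat.card_pos.ne'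
  rw [finsum_eq_sum_of_fintype, sum_fx f.fieldRange.fixingSubgroup (fun g => (th φ Fr g : ℚ))
    fun x g => by rw [th_conj]]
  have h3 : ∑ᶠ h : f.fieldRange.fixingSubgroup, (th φ Fr (h : Gal(L/K)) : ℚ) =
      (Nat.card f.fieldRange.fixingSubgroup : ℚ) * nf F φ Fr := by
    let _ : Fintype f.fieldRange.fixingSubgroup := Fintype.ofFinite _
    rw [finsum_eq_sum_of_fintype] at h1 ⊢
    exact_mod_cast h1.symm
  rw [h3]
  field_simp

variable {ι : Type} [Fintype ι] (Z : ι → Ext K) (f : ∀ i, (Z i).F →ₐ[K] L) (e : ι → ℤ) (m : ℕ)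

theorem nf_rel (h : ∀ g : Gal(L/K), ∑ i, e i * fx (f i).fieldRange.fixingSubgroup g = m)
    (hφ : Fr.comp φ = φ) : ∑ i, e i * (nf (Z i).F φ Fr : ℤ) = m := by
  classical
  let _ : Fintype Gal(L/K) := Fintype.ofFinite _
  have h0 : (Nat.card Gal(L/K) : ℚ) ≠ 0 := by exact_mod_cast Nat.card_pos.ne'
  have h1 := nf_mul' φ Fr (Algebra.ofId K L)
  rw [nf_self φ Fr hφ, finsum_eq_sum_of_fintype] at h1
  have h2 : ∀ g : Gal(L/K), (fx (Algebra.ofId K L).fieldRange.fixingSubgroup g : ℚ) = 1 := by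
    intro g
    have e1 : (Algebra.ofId K L).fieldRange.fixingSubgroup = ⊤ := by
      rw [eq_top_iff]
      intro σ _
      rw [IntermediateField.mem_fixingSubgroup_iff]
      rintro _ ⟨x, rfl⟩
      exact σ.commutes x
    rw [e1, fx]
    have : Subsingleton (Gal(L/K) ⧸ (⊤ : Subgroup Gal(L/K))) := QuotientGroup.subsingleton_quotient_top
    have h3 : Nat.card {c : Gal(L/K) ⧸ (⊤ : Subgroup Gal(L/K)) // g • c = c} = 1 := by
      rw [Nat.card_eq_one_iff_unique]
      exact ⟨inferInstance, ⟨⟨(1 : Gal(L/K)), Subsingleton.elim _ _⟩⟩⟩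
    rw [h3]
    norm_num
  have h4 : (Nat.card Gal(L/K) : ℚ) * ∑ i, (e i : ℚ) * nf (Z i).F φ Fr = Nat.card Gal(L/K) * m := by
    calc (Nat.card Gal(L/K) : ℚ) * ∑ i, (e i : ℚ) * nf (Z i).F φ Fr
        = ∑ i, (e i : ℚ) * ∑ g : Gal(L/K), (fx (f i).fieldRange.fixingSubgroup g : ℚ) * th φ Fr g := by
          rw [Finset.mul_sum]
          refine Finset.sum_congr rfl fun i _ => ?_
          rw [← finsum_eq_sum_of_fintype, ← nf_mul' φ Fr (f i)]
          ring
      _ = ∑ g : Gal(L/K), (∑ i, (e i : ℚ) * fx (f i).fieldRange.fixingSubgroup g) * th φ Fr g := by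
          simp_rw [Finset.sum_mul, Finset.mul_sum, mul_assoc]
          exact Finset.sum_comm
      _ = (m : ℚ) * ∑ g : Gal(L/K), (th φ Fr g : ℚ) := by
          rw [Finset.mul_sum]
          refine Finset.sum_congr rfl fun g _ => ?_
          congr 1
          exact_mod_cast h g
      _ = _ := by
          have h5 : ∑ g : Gal(L/K), (th φ Fr g : ℚ) = Nat.card Gal(L/K) := by
            rw [Nat.cast_one, mul_one] at h1
            rw [h1]
            exact Finset.sum_congr rfl fun g _ => by rw [h2 g, one_mul]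
          rw [h5, mul_comm]
  have h5 := mul_left_cancel₀ h0 h4
  exact_mod_cast h5

end fixed

end Pool.Agent.R333.BR
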