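import Pool.Agent.R333.BR.Place

/-! Permutation relations: the number of the infinite places. -/

set_option autoImplicit false

namespace Pool.Agent.R333.BR

open NumberField IsDedekindDomain
open Pool.Agent.R433.MD

/-- the homomorphisms fixed by `Fr` -/
abbrev Fix (F : Type) [Field F] [NumberField F] (Fr : ℂ →+* ℂ) : Type :=
  {ψ : 𝓞 F →+* ℂ // Fr.comp ψ = ψ}

theorem inj_of_int {F : Type} [Field F] [NumberField F] (ψ : 𝓞 F →+* ℂ) :
    Function.Injective ψ := by
  rw [injective_iff_map_eq_zero]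
  intro y hy
  by_contra hy0
  have h1 : (RingHom.ker ψ).comap (algebraMap ℤ (𝓞 F)) ≠ ⊥ :=
    Ideal.comap_ne_bot_of_integral_mem hy0 (I := RingHom.ker ψ) hy
      (Algebra.IsIntegral.isIntegral (R := ℤ) y)
  obtain ⟨n, hn, hn0⟩ := Submodule.exists_mem_ne_zero_of_ne_bot h1
  have h2 : ψ (algebraMap ℤ (𝓞 F) n) = 0 := hn
  rw [eq_intCast, map_intCast] at h2
  exact hn0 (by exact_mod_cast h2)

/-- restriction to the integers -/
noncomputable def resEquiv (F : Type) [Field F] [NumberField F] (Fr : ℂ →+* ℂ) :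
    {ψ : F →+* ℂ // Fr.comp ψ = ψ} ≃ Fix F Fr :=
  Equiv.ofBijective (fun ψ => ⟨ψ.1.comp (algebraMap (𝓞 F) F), by
    rw [← RingHom.comp_assoc, ψ.2]⟩) (by
    constructor
    · intro ψ ψ' h
      have h1 : ψ.1.comp (algebraMap (𝓞 F) F) = ψ'.1.comp (algebraMap (𝓞 F) F) :=
        congrArg Subtype.val h
      exact Subtype.ext (IsLocalization.ringHom_ext (nonZeroDivisors (𝓞 F)) h1)
    · intro ψ
      have h1 : (IsFractionRing.lift (K := F) (inj_of_int ψ.1)).comp (algebraMap (𝓞 F) F) = ψ.1 :=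
        IsLocalization.lift_comp _
      refine ⟨⟨IsFractionRing.lift (K := F) (inj_of_int ψ.1),
        IsLocalization.ringHom_ext (nonZeroDivisors (𝓞 F)) ?_⟩, Subtype.ext h1⟩
      rw [RingHom.comp_assoc, h1, ψ.2])

instance finite_fix (F : Type) [Field F] [NumberField F] (Fr : ℂ →+* ℂ) : Finite (Fix F Fr) :=
  Finite.of_equiv _ (resEquiv F Fr)

theorem card_fix {K F : Type} [Field K] [NumberField K] [Field F] [NumberField F] [Algebra K F]
    (Fr : ℂ →+* ℂ) [Fintype (Fix K Fr)] : Nat.card (Fix F Fr) = ∑ φ : Fix K Fr, nf F φ.1 Fr := by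
  classical
  let π : Fix F Fr → Fix K Fr := fun ψ => ⟨ψ.1.comp (algebraMap (𝓞 K) (𝓞 F)), by
    rw [← RingHom.comp_assoc, ψ.2]⟩
  have h1 : Nat.card (Fix F Fr) = ∑ φ : Fix K Fr, Nat.card {ψ : Fix F Fr // π ψ = φ} := by
    rw [← Nat.card_sigma]
    exact Nat.card_congr (Equiv.sigmaFiberEquiv π).symm
  rw [h1]
  refine Finset.sum_congr rfl fun φ _ => ?_
  refine Nat.card_congr
    { toFun := fun ψ => ⟨ψ.1.1, congrArg Subtype.val ψ.2, ψ.1.2⟩
      invFun := fun ψ => ⟨⟨ψ.1, ψ.2.2⟩, Subtype.ext ψ.2.1⟩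
      left_inv := fun ψ => rfl
      right_inv := fun ψ => rfl }

open Classical in
theorem two_mul_inf (F : Type) [Field F] [NumberField F] :
    2 * Fintype.card (InfinitePlace F) =
      Nat.card (Fix F (starRingEnd ℂ)) + Nat.card (Fix F (RingHom.id ℂ)) := by
  have h1 := InfinitePlace.card_add_two_mul_card_eq_rank F
  have h2 := InfinitePlace.card_eq_nrRealPlaces_add_nrComplexPlaces F
  have h3 : Nat.card (Fix F (starRingEnd ℂ)) = InfinitePlace.nrRealPlaces F := by
    rw [← InfinitePlace.card_real_embeddings, ← Nat.card_congr (resEquiv F _),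
      ← Nat.card_eq_fintype_card]
    refine Nat.card_congr (Equiv.subtypeEquivRight fun ψ => ?_)
    exact ComplexEmbedding.isReal_iff.symm
  have h4 : Nat.card (Fix F (RingHom.id ℂ)) = Module.finrank ℚ F := by
    rw [← Embeddings.card F ℂ, ← Nat.card_congr (resEquiv F _), ← Nat.card_eq_fintype_card]
    exact Nat.card_congr (Equiv.subtypeUnivEquiv fun ψ => RingHom.id_comp ψ)
  omega

section rel

variable {K L : Type} [Field K] [NumberField K] [Field L] [NumberField L] [Algebra K L]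
  [IsGalois K L] {ι : Type} [Fintype ι] (Z : ι → Ext K) (f : ∀ i, (Z i).F →ₐ[K] L) (e : ι → ℤ)
  (m : ℕ)

theorem fix_rel (h : ∀ g : Gal(L/K), ∑ i, e i * fx (f i).fieldRange.fixingSubgroup g = m)
    (Fr : ℂ →+* ℂ) : ∑ i, e i * (Nat.card (Fix (Z i).F Fr) : ℤ) = m * Nat.card (Fix K Fr) := by
  classical
  let _ : Fintype (Fix K Fr) := Fintype.ofFinite _
  have h1 : ∀ i, (Nat.card (Fix (Z i).F Fr) : ℤ) = ∑ φ : Fix K Fr, (nf (Z i).F φ.1 Fr : ℤ) := by
    intro i
    rw [card_fix (K := K)]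
    push_cast
    rfl
  calc ∑ i, e i * (Nat.card (Fix (Z i).F Fr) : ℤ)
      = ∑ φ : Fix K Fr, ∑ i, e i * (nf (Z i).F φ.1 Fr : ℤ) := by
        rw [Finset.sum_comm]
        refine Finset.sum_congr rfl fun i _ => ?_
        rw [h1, Finset.mul_sum]
    _ = ∑ φ : Fix K Fr, (m : ℤ) := Finset.sum_congr rfl fun φ _ => nf_rel φ.1 Fr Z f e m h φ.2
    _ = _ := by
        rw [Finset.sum_const, Finset.card_univ, nsmul_eq_mul, Nat.card_eq_fintype_card, mul_comm]

open Classical in
/-- the number of the infinite places -/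
theorem inf_rel (h : ∀ g : Gal(L/K), ∑ i, e i * fx (f i).fieldRange.fixingSubgroup g = m) :
    ∑ i, e i * (Fintype.card (InfinitePlace (Z i).F) : ℤ) = m * Fintype.card (InfinitePlace K) := by
  have h1 := fix_rel Z f e m h (starRingEnd ℂ)
  have h2 := fix_rel Z f e m h (RingHom.id ℂ)
  have h3 : ∀ (F : Type) [Field F] [NumberField F], (2 : ℤ) * Fintype.card (InfinitePlace F) =
      Nat.card (Fix F (starRingEnd ℂ)) + Nat.card (Fix F (RingHom.id ℂ)) := fun F _ _ => by
    exact_mod_cast two_mul_inf F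
  have h4 : (2 : ℤ) * ∑ i, e i * (Fintype.card (InfinitePlace (Z i).F) : ℤ) =
      2 * (m * Fintype.card (InfinitePlace K)) := by
    calc (2 : ℤ) * ∑ i, e i * (Fintype.card (InfinitePlace (Z i).F) : ℤ)
        = ∑ i, e i * (Nat.card (Fix (Z i).F (starRingEnd ℂ)) : ℤ) +
          ∑ i, e i * (Nat.card (Fix (Z i).F (RingHom.id ℂ)) : ℤ) := by
          rw [Finset.mul_sum, ← Finset.sum_add_distrib]
          refine Finset.sum_congr rfl fun i _ => ?_
          linear_combination e i * h3 (Z i).F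
      _ = _ := by
          rw [h1, h2]
          linear_combination (-(m : ℤ)) * h3 K
  exact mul_left_cancel₀ two_ne_zero h4

end rel

end Pool.Agent.R333.BR
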