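import Pool.Agent.R333.BR.Infin

/-! Multiplicative reduction: nodes, points, split multiplicative reduction after an extension. -/

set_option autoImplicit false

namespace Pool.Agent.R333.BR

open NumberField IsDedekindDomain
open Pool.Agent.R433.MD
open Pool.Agent.H341R2.EC

/-- the node of a singular equation with `c₄ ≠ 0` -/
theorem exists_node {k : Type*} [Field k] (V : WeierstrassCurve k) (h : V.Δ = 0) (hc : V.c₄ ≠ 0) :
    ∃ x y : k, V.a₃ + x * V.a₁ + 2 * y = 0 ∧ V.a₄ + 2 * x * V.a₂ - y * V.a₁ + 3 * x ^ 2 = 0 ∧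
      V.a₆ + x * V.a₄ + x ^ 2 * V.a₂ + x ^ 3 - y * V.a₃ - y ^ 2 - x * y * V.a₁ = 0 := by
  by_cases h2 : (2 : k) = 0
  · -- characteristic two
    have ha : V.a₁ ≠ 0 := by
      intro ha
      apply hc
      rw [WeierstrassCurve.c₄, WeierstrassCurve.b₂, WeierstrassCurve.b₄, ha]
      linear_combination (8 * V.a₂ ^ 2 - 24 * V.a₄) * h2
    obtain ⟨x, hx⟩ : ∃ x, V.a₃ = V.a₁ * x := ⟨V.a₃ / V.a₁, by field_simp⟩
    obtain ⟨y, hy⟩ : ∃ y, V.a₄ = V.a₁ * y - x ^ 2 := ⟨(V.a₄ + x ^ 2) / V.a₁, by field_simp; ring⟩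
    refine ⟨x, y, ?_, ?_, ?_⟩
    · rw [hx]
      linear_combination (V.a₁ * x + y) * h2
    · rw [hy]
      linear_combination (x * V.a₂ + x ^ 2) * h2
    · have h3 : V.a₁ ^ 6 * (V.a₆ + x * V.a₄ + x ^ 2 * V.a₂ + x ^ 3 - y * V.a₃ - y ^ 2 -
          x * y * V.a₁) = 0 := by
        rw [WeierstrassCurve.Δ, WeierstrassCurve.b₂, WeierstrassCurve.b₄, WeierstrassCurve.b₆,
          WeierstrassCurve.b₈, hy, hx] at h
        rw [hy, hx]
        linear_combination (-1 : k) * h + (-216*V.a₆^2 + 32*x^6 - 144*V.a₂*x^2*V.a₆ + 8*V.a₂^2*x^4 -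
          32*V.a₂^3*V.a₆ - 96*V.a₁*x^4*y + 144*V.a₁*V.a₂*y*V.a₆ - 16*V.a₁*V.a₂^2*x^2*y -
          144*V.a₁^2*x^2*V.a₆ + 96*V.a₁^2*x^2*y^2 - 48*V.a₁^2*x^5 + 72*V.a₁^2*V.a₂*x*V.a₆ -
          32*V.a₁^2*V.a₂*x^4 - 24*V.a₁^2*V.a₂^2*V.a₆ + 8*V.a₁^2*V.a₂^2*y^2 - 8*V.a₁^2*V.a₂^2*x^3 -
          8*V.a₁^2*V.a₂^3*x^2 + 36*V.a₁^3*y*V.a₆ - 32*V.a₁^3*y^3 + 96*V.a₁^3*x^3*y +
          28*V.a₁^3*V.a₂*x^2*y + 8*V.a₁^3*V.a₂^2*x*y + 18*V.a₁^4*x*V.a₆ - 48*V.a₁^4*x*y^2 +
          2*V.a₁^4*x^4 - 6*V.a₁^4*V.a₂*V.a₆ + 4*V.a₁^4*V.a₂*y^2 + 14*V.a₁^4*V.a₂*x^3 -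
          4*V.a₁^4*V.a₂^2*x^2 - 16*V.a₁^5*x^2*y + 4*V.a₁^5*V.a₂*x*y) * h2
      exact (mul_eq_zero.1 h3).resolve_left (pow_ne_zero 6 ha)
  · have h4 : (4 : k) ≠ 0 := by
      have e : (4 : k) = 2 * 2 := by norm_num
      rw [e]
      exact mul_ne_zero h2 h2
    have hb8 : 4 * V.b₈ = V.b₂ * V.b₆ - V.b₄ ^ 2 := V.b_relation
    have h9 : -V.b₂ ^ 2 * V.b₈ - 8 * V.b₄ ^ 3 - 27 * V.b₆ ^ 2 + 9 * V.b₂ * V.b₄ * V.b₆ = 0 := h
    obtain ⟨x, hx⟩ : ∃ x, V.c₄ * x = 18 * V.b₆ - V.b₂ * V.b₄ :=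
      ⟨(18 * V.b₆ - V.b₂ * V.b₄) / V.c₄, by field_simp⟩
    have f1 : 4 * x ^ 3 + V.b₂ * x ^ 2 + 2 * V.b₄ * x + V.b₆ = 0 := by
      have h5 : V.c₄ ^ 3 * (4 * x ^ 3 + V.b₂ * x ^ 2 + 2 * V.b₄ * x + V.b₆) = 0 := by
        have e : V.c₄ ^ 3 * (4 * x ^ 3 + V.b₂ * x ^ 2 + 2 * V.b₄ * x + V.b₆) =
            4 * (V.c₄ * x) ^ 3 + V.b₂ * (V.c₄ * x) ^ 2 * V.c₄ +
            2 * V.b₄ * (V.c₄ * x) * V.c₄ ^ 2 + V.b₆ * V.c₄ ^ 3 := by ring
        rw [e, hx, WeierstrassCurve.c₄]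
        linear_combination 4 * (-V.b₂ ^ 3 + 36 * V.b₂ * V.b₄ - 216 * V.b₆) * h9 +
          (-V.b₂ ^ 3 + 36 * V.b₂ * V.b₄ - 216 * V.b₆) * V.b₂ ^ 2 * hb8
      exact (mul_eq_zero.1 h5).resolve_left (pow_ne_zero 3 hc)
    have f2 : 12 * x ^ 2 + 2 * V.b₂ * x + 2 * V.b₄ = 0 := by
      have h5 : V.c₄ ^ 2 * (12 * x ^ 2 + 2 * V.b₂ * x + 2 * V.b₄) = 0 := by
        have e : V.c₄ ^ 2 * (12 * x ^ 2 + 2 * V.b₂ * x + 2 * V.b₄) =
            12 * (V.c₄ * x) ^ 2 + 2 * V.b₂ * (V.c₄ * x) * V.c₄ + 2 * V.b₄ * V.c₄ ^ 2 := by ring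
        rw [e, hx, WeierstrassCurve.c₄]
        linear_combination (-144 : k) * h9 - 36 * V.b₂ ^ 2 * hb8
      exact (mul_eq_zero.1 h5).resolve_left (pow_ne_zero 2 hc)
    obtain ⟨y, hy⟩ : ∃ y, 2 * y = -(V.a₁ * x + V.a₃) := ⟨-(V.a₁ * x + V.a₃) / 2, by field_simp⟩
    rw [WeierstrassCurve.b₂, WeierstrassCurve.b₄] at f2
    rw [WeierstrassCurve.b₂, WeierstrassCurve.b₄, WeierstrassCurve.b₆] at f1
    refine ⟨x, y, by linear_combination hy, ?_, ?_⟩
    · have h5 : (4 : k) * (V.a₄ + 2 * x * V.a₂ - y * V.a₁ + 3 * x ^ 2) = 0 := by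
        linear_combination f2 - 2 * V.a₁ * hy
      exact (mul_eq_zero.1 h5).resolve_left h4
    · have h5 : (4 : k) * (V.a₆ + x * V.a₄ + x ^ 2 * V.a₂ + x ^ 3 - y * V.a₃ - y ^ 2 -
          x * y * V.a₁) = 0 := by
        linear_combination f1 - (2 * y + V.a₁ * x + V.a₃) * hy
      exact (mul_eq_zero.1 h5).resolve_left h4

/-- the number of the points of a cubic with a node at the origin -/
theorem aff_node {k : Type} [Field k] [Finite k] (V : WeierstrassCurve k) (h3 : V.a₃ = 0)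
    (h4 : V.a₄ = 0) (h6 : V.a₆ = 0) :
    aff V + Nat.card {t : k // t ^ 2 + V.a₁ * t - V.a₂ = 0} = Nat.card k + 1 := by
  classical
  let p : k → k := fun t => t ^ 2 + V.a₁ * t - V.a₂
  have h1 : aff V = Nat.card (Option {t : k // ¬ p t = 0}) := by
    unfold aff
    symm
    refine Nat.card_congr (Equiv.ofBijective (fun o => match o with
      | none => ⟨(0, 0), by rw [h3, h4, h6]; ring⟩
      | some t => ⟨(p t.1, t.1 * p t.1), by
          rw [h3, h4, h6]
          simp only [p]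
          ring⟩) ⟨?_, ?_⟩)
    · rintro (_ | t) (_ | t') h
      · rfl
      · exact absurd (congrArg (fun q => q.1.1) h).symm t'.2
      · exact absurd (congrArg (fun q => q.1.1) h) t.2
      · have e1 : p t.1 = p t'.1 := congrArg (fun q => q.1.1) h
        have e2 : t.1 * p t.1 = t'.1 * p t'.1 := congrArg (fun q => q.1.2) h
        rw [← e1] at e2
        have e3 := mul_right_cancel₀ t.2 e2
        rw [Subtype.ext e3]
    · rintro ⟨⟨x, y⟩, hxy⟩
      rw [h3, h4, h6] at hxy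
      simp only at hxy
      by_cases hx : x = 0
      · have hy : y = 0 := by
          rw [hx] at hxy
          have : y ^ 2 = 0 := by linear_combination hxy
          exact pow_eq_zero_iff (by norm_num) |>.1 this
        exact ⟨none, Subtype.ext (Prod.ext hx.symm hy.symm)⟩
      · have hp : p (y / x) = x := by
          simp only [p]
          field_simp
          linear_combination hxy
        refine ⟨some ⟨y / x, by rw [hp]; exact hx⟩, Subtype.ext (Prod.ext ?_ ?_)⟩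
        · exact hp
        · change y / x * p (y / x) = y
          rw [hp]
          field_simp
  rw [h1, Finite.card_option]
  have h2 : Nat.card {t : k // p t = 0} + Nat.card {t : k // ¬ p t = 0} = Nat.card k := by
    let _ : Fintype k := Fintype.ofFinite _
    rw [Nat.card_eq_fintype_card, Nat.card_eq_fintype_card, Nat.card_eq_fintype_card,
      Fintype.card_subtype_compl]
    have := Fintype.card_subtype_le (fun t : k => p t = 0)
    omega
  change Nat.card {t : k // ¬ p t = 0} + 1 + Nat.card {t : k // p t = 0} = _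
  omega

/-- roots of quadratic polynomials in extensions of finite fields -/
theorem root_ext {k l : Type} [Field k] [Finite k] [Field l] [Finite l] [Algebra k l] (a b : k) :
    (∃ t : l, t ^ 2 + algebraMap k l a * t - algebraMap k l b = 0) ↔
      (∃ t : k, t ^ 2 + a * t - b = 0) ∨ 2 ∣ Module.finrank k l := by
  classical
  have hfin : Module.Finite k l := Module.Finite.of_finite
  let P : Polynomial k := Polynomial.X ^ 2 + Polynomial.C a * Polynomial.X - Polynomial.C b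
  have hP2 : P.natDegree = 2 := by
    simp only [P]
    compute_degree!
  have hPm : P.Monic := by
    simp only [P]
    monicity!
  have heval : ∀ {m : Type} [Field m] [Algebra k m] (t : m), Polynomial.aeval t P =
      t ^ 2 + algebraMap k m a * t - algebraMap k m b := by
    intro m _ _ t
    simp [P]
  by_cases hr : ∃ t : k, t ^ 2 + a * t - b = 0
  · refine ⟨fun _ => Or.inl hr, fun _ => ?_⟩
    obtain ⟨t, ht⟩ := hr
    refine ⟨algebraMap k l t, ?_⟩
    rw [← map_pow, ← map_mul, ← map_add, ← map_sub, ht, map_zero]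
  · have hirr : Irreducible P := by
      rw [Polynomial.Monic.irreducible_iff_roots_eq_zero_of_degree_le_three hPm (by rw [hP2])
        (by rw [hP2]; norm_num)]
      rw [Multiset.eq_zero_iff_forall_notMem]
      intro t ht
      apply hr
      refine ⟨t, ?_⟩
      have h1 := (Polynomial.mem_roots'.1 ht).2
      rw [Polynomial.IsRoot] at h1
      simpa [P] using h1
    constructor
    · rintro ⟨t, ht⟩
      right
      have h1 : minpoly k t = P := (minpoly.eq_of_irreducible_of_monic hirr (by rw [heval, ht]) hPm).symm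
      have h2 := minpoly.degree_dvd (K := k) (x := t) (Algebra.IsIntegral.isIntegral t)
      rwa [h1, hP2] at h2
    · rintro (h1 | h1)
      · exact absurd h1 hr
      · have : Fact (Irreducible P) := ⟨hirr⟩
        have hfr : Module.finrank k (AdjoinRoot P) = 2 := by
          rw [← hP2]
          exact (AdjoinRoot.powerBasis hPm.ne_zero).finrank.trans
            (AdjoinRoot.powerBasis_dim hPm.ne_zero)
        rw [← hfr] at h1
        have hf2 : Module.Finite k (AdjoinRoot P) := Module.finite_of_finrank_pos (by omega)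
        have : Finite (AdjoinRoot P) := Module.finite_of_finite k
        obtain ⟨χ⟩ := FiniteField.nonempty_algHom_iff_finrank_dvd.2 h1
        refine ⟨χ (AdjoinRoot.root P), ?_⟩
        rw [← heval, Polynomial.aeval_algHom_apply]
        rw [AdjoinRoot.aeval_eq, AdjoinRoot.mk_self, map_zero]

end Pool.Agent.R333.BR
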