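import Pool.Agent.R333.BR.Split
import Pool.Agent.R333.BR.Pts
import Mathlib.Analysis.Polynomial.Basic

/-! Cyclic extensions of odd degree: the parity of the rank and of the exponent of the root
number. -/

set_option autoImplicit false

namespace Pool.Agent.R333.BR

open NumberField IsDedekindDomain Module
open Pool.Agent.R433.MD
open Pool.Agent.H921R2.TatePole (nm two_le_nm)

section linear

open TensorProduct

theorem odd_root_pos {p : Polynomial ℝ} (h : Odd p.natDegree) (h0 : 0 < p.leadingCoeff) :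
    ∃ x : ℝ, p.IsRoot x := by
  have hd : 0 < p.degree := Polynomial.natDegree_pos_iff_degree_pos.1 h.pos
  have h1 : Filter.Tendsto (fun x => p.eval x) Filter.atTop Filter.atTop :=
    p.tendsto_atTop_of_leadingCoeff_nonneg hd h0.le
  have hX : (-Polynomial.X : Polynomial ℝ).natDegree = 1 := by
    rw [Polynomial.natDegree_neg, Polynomial.natDegree_X]
  have hX' : (-Polynomial.X : Polynomial ℝ).leadingCoeff = -1 := by
    rw [Polynomial.leadingCoeff_neg, Polynomial.leadingCoeff_X]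
  have hq : (p.comp (-Polynomial.X)).leadingCoeff = -p.leadingCoeff := by
    rw [Polynomial.leadingCoeff_comp (by rw [hX]; exact one_ne_zero), hX', h.neg_one_pow]
    ring
  have hqd : 0 < (p.comp (-Polynomial.X)).degree := by
    rw [← Polynomial.natDegree_pos_iff_degree_pos, Polynomial.natDegree_comp, hX, mul_one]
    exact h.pos
  have h2 : Filter.Tendsto (fun x => (p.comp (-Polynomial.X)).eval x) Filter.atTop Filter.atBot :=
    (p.comp (-Polynomial.X)).tendsto_atBot_of_leadingCoeff_nonpos hqd (by rw [hq]; linarith)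
  obtain ⟨a, ha⟩ := (h1.eventually_ge_atTop 0).exists
  obtain ⟨b, hb⟩ := (h2.eventually_le_atBot 0).exists
  rw [Polynomial.eval_comp, Polynomial.eval_neg, Polynomial.eval_X] at hb
  obtain ⟨x, hx⟩ := mem_range_of_exists_le_of_exists_ge p.continuous ⟨-b, hb⟩ ⟨a, ha⟩
  exact ⟨x, hx⟩

theorem odd_root {p : Polynomial ℝ} (h : Odd p.natDegree) : ∃ x : ℝ, p.IsRoot x := by
  have hp : p.leadingCoeff ≠ 0 := by
    rw [Polynomial.leadingCoeff_ne_zero]
    rintro rfl
    rw [Polynomial.natDegree_zero] at h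
    exact absurd h (by decide)
  rcases lt_or_gt_of_ne hp with h1 | h1
  · obtain ⟨x, hx⟩ := odd_root_pos (p := -p) (by rwa [Polynomial.natDegree_neg])
      (by rw [Polynomial.leadingCoeff_neg]; linarith)
    refine ⟨x, ?_⟩
    rw [Polynomial.IsRoot, Polynomial.eval_neg, neg_eq_zero] at hx
    exact hx
  · exact odd_root_pos h h1

theorem odd_ker {V : Type*} [AddCommGroup V] [Module ℚ V] [FiniteDimensional ℚ V]
    (g : V →ₗ[ℚ] V) (n : ℕ) (hn : Odd n) (hg : g ^ n = 1) :
    Even (finrank ℚ V + finrank ℚ (LinearMap.ker (g - 1))) := by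
  set W := LinearMap.range (g - 1) with hW
  have hstab : ∀ x ∈ W, g x ∈ W := by
    rintro _ ⟨u, rfl⟩
    exact ⟨g u, by simp [LinearMap.sub_apply]⟩
  let h : W →ₗ[ℚ] W := g.restrict hstab
  have hpow : ∀ (k : ℕ) (x : W), (((h ^ k) x : W) : V) = (g ^ k) (x : V) := by
    intro k
    induction k with
    | zero => intro x; rfl
    | succ k ih =>
      intro x
      rw [pow_succ, pow_succ]
      exact ih (h x)
  have hh : h ^ n = 1 := by
    refine LinearMap.ext fun x => Subtype.ext ?_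
    rw [hpow, hg]
    rfl
  have hrk : finrank ℚ W + finrank ℚ (LinearMap.ker (g - 1)) = finrank ℚ V :=
    LinearMap.finrank_range_add_finrank_ker (g - 1)
  suffices hev : Even (finrank ℚ W) by
    obtain ⟨a, ha⟩ := hev
    exact ⟨a + finrank ℚ (LinearMap.ker (g - 1)), by omega⟩
  by_contra hodd
  rw [Nat.not_even_iff_odd] at hodd
  have h1 : Odd (h.charpoly.map (algebraMap ℚ ℝ)).natDegree := by
    rw [Polynomial.natDegree_map, LinearMap.charpoly_natDegree]
    exact hodd
  obtain ⟨x, hx⟩ := odd_root h1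
  have hx' := hx
  rw [← LinearMap.charpoly_baseChange] at hx
  obtain ⟨v, hv⟩ := (Module.End.hasEigenvalue_iff_isRoot_charpoly _ _).2 hx |>.exists_hasEigenvector
  have hv1 : ∀ k : ℕ, (h.baseChange ℝ ^ k) v = x ^ k • v := by
    intro k
    induction k with
    | zero => simp
    | succ k ih => rw [pow_succ', Module.End.mul_apply, ih, map_smul, hv.apply_eq_smul, smul_smul,
        pow_succ]
  have hb : h.baseChange ℝ ^ n = 1 := by
    rw [← LinearMap.baseChange_pow, hh]
    exact LinearMap.baseChange_id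
  have hxn : x ^ n = 1 := by
    have h2 := hv1 n
    rw [hb] at h2
    refine smul_left_injective ℝ hv.2 ?_
    change x ^ n • v = (1 : ℝ) • v
    rw [one_smul, ← h2]
    rfl
  have hx1 : x = 1 := by
    have h2 : x ^ n = 1 ^ n := by rw [hxn, one_pow]
    exact hn.strictMono_pow.injective h2
  rw [hx1] at hx'
  have hr : h.charpoly.IsRoot 1 := by
    rw [Polynomial.IsRoot, Polynomial.eval_map, ← map_one (algebraMap ℚ ℝ),
      Polynomial.eval₂_at_apply] at hx'
    exact (algebraMap ℚ ℝ).injective (by rw [hx', map_zero])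
  obtain ⟨w, hw⟩ := (Module.End.hasEigenvalue_iff_isRoot_charpoly _ _).2 hr |>.exists_hasEigenvector
  have hw1 : g (w : V) = w := by
    have h2 := congrArg Subtype.val hw.apply_eq_smul
    rw [one_smul] at h2
    exact h2
  obtain ⟨u, hu⟩ := w.2
  have h2 : (∑ i ∈ Finset.range n, g ^ i) ((g - 1) u) = 0 := by
    rw [← Module.End.mul_apply, geom_sum_mul, hg, sub_self]
    rfl
  have h3 : ∀ i : ℕ, (g ^ i) (w : V) = w := by
    intro i
    induction i with
    | zero => rfl
    | succ i ih => rw [pow_succ', Module.End.mul_apply, ih, hw1]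
  rw [hu, LinearMap.sum_apply, Finset.sum_congr rfl fun i _ => h3 i, Finset.sum_const,
    Finset.card_range, ← Nat.cast_smul_eq_nsmul ℚ] at h2
  have hn0 : n ≠ 0 := hn.pos.ne'
  have h4 : (w : V) = 0 := by
    rcases smul_eq_zero.1 h2 with h5 | h5
    · exact absurd h5 (by exact_mod_cast hn0)
    · exact h5
  exact hw.2 (Subtype.ext h4)

end linear

section rank

open scoped Classical TensorProduct

theorem rank_odd {F F' : Type} [Field F] [Field F'] [Algebra F F'] [FiniteDimensional F F']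
    [IsGalois F F'] (hc : IsCyclic Gal(F'/F)) (ho : Odd (Nat.card Gal(F'/F)))
    (E : WeierstrassCurve F) :
    (∀ r' : ℕ, Module.rank ℤ (Pt E F') = r' →
      ∃ r : ℕ, Module.rank ℤ E.toAffine.Point = r ∧ Even (r' + r)) := by
  intro r' hr'
  set α := actPt (L := F') E with hα
  have hV : Module.rank ℚ (ℚ ⊗[ℤ] Pt E F') = r' := by
    have hloc := isLoc (Pt E F')
    have h1 := IsLocalizedModule.rank_eq (nonZeroDivisors ℤ) le_rfl
      (TensorProduct.mk ℤ ℚ (Pt E F') 1)
    rw [← hr', ← h1]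
    exact IsFractionRing.rank_right_eq ℤ ℚ _
  have hfin : FiniteDimensional ℚ (ℚ ⊗[ℤ] Pt E F') := by
    refine Module.rank_lt_aleph0_iff.1 ?_
    rw [hV]
    exact Cardinal.natCast_lt_aleph0
  have h4 : Module.rank ℚ (Representation.invariants (ext α)) =
      Module.rank ℤ E.toAffine.Point := by
    have h5 := rank_fixed α (Algebra.ofId F F').fieldRange.fixingSubgroup
    rw [← rank_emb, rank_self] at h5
    rw [← h5]
    have e1 : Representation.invariants (ext α) = Representation.invariants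
        ((ext α).comp (Algebra.ofId F F').fieldRange.fixingSubgroup.subtype) := by
      ext x
      rw [Representation.mem_invariants, Representation.mem_invariants]
      constructor
      · intro h g
        exact h g
      · intro h g
        exact h ⟨g, by
          rintro ⟨_, y, rfl⟩
          exact g.commutes y⟩
    rw [e1]
  obtain ⟨g, hg⟩ := hc.exists_generator
  have hker : LinearMap.ker (ext α g - 1) = Representation.invariants (ext α) := by
    ext x
    rw [LinearMap.mem_ker, LinearMap.sub_apply, sub_eq_zero, Representation.mem_invariants]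
    constructor
    · intro h y
      obtain ⟨k, rfl⟩ := (mem_powers_iff_mem_zpowers.2 (hg y) : y ∈ Submonoid.powers g)
      induction k with
      | zero => simp
      | succ k ih =>
        have e1 : ext α (g ^ (k + 1)) x = ext α (g ^ k) (ext α g x) := by
          rw [pow_succ, map_mul]
          rfl
        rw [e1]
        have e2 : ext α g x = x := h
        rw [e2]
        exact ih
    · intro h
      exact h g
  have hpow : (ext α g) ^ Nat.card Gal(F'/F) = 1 := by
    rw [← map_pow, pow_card_eq_one', map_one]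
  have h5 := odd_ker (ext α g) (Nat.card Gal(F'/F)) ho hpow
  rw [hker] at h5
  have h6 : finrank ℚ (ℚ ⊗[ℤ] Pt E F') = r' := by
    rw [finrank, hV]
    exact Cardinal.toNat_natCast _
  rw [h6] at h5
  refine ⟨_, ?_, h5⟩
  rw [← h4, finrank_eq_rank]

end rank

section places

variable {K L : Type} [Field K] [NumberField K] [Field L] [NumberField L] [Algebra K L]
  [IsGalois K L]

theorem tw_bot {Ω : Type} [Field Ω] (Ψ Ψ' : 𝓞 L →+* Ω)
    (h : Ψ.comp (algebraMap (𝓞 K) (𝓞 L)) = Ψ'.comp (algebraMap (𝓞 K) (𝓞 L))) :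
    ∃ σ : Gal(L/K), Ψ' = Ψ.comp (ri σ) := by
  obtain ⟨σ, -, hσ⟩ := exists_tw (K := K) (⊥ : IntermediateField K L) Ψ Ψ' (by
    intro x hx
    obtain ⟨c, hc⟩ := IntermediateField.mem_bot.1 hx
    have hi : IsIntegral ℤ c := by
      have h1 : IsIntegral ℤ (algebraMap K L c) := by
        rw [hc]
        exact x.2
      exact (isIntegral_algebraMap_iff (algebraMap K L).injective).1 h1
    have e : x = algebraMap (𝓞 K) (𝓞 L) (⟨c, hi⟩ : 𝓞 K) := by
      apply RingOfIntegers.coe_injective (K := L)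
      exact hc.symm
    rw [e]
    exact RingHom.congr_fun h _)
  exact ⟨σ, hσ⟩

omit [NumberField K] [IsGalois K L] in
theorem ri_inj {g g' : Gal(L/K)} (h : ri g = ri g') : g = g' := by
  have h1 : (g : L →+* L).comp (algebraMap (𝓞 L) L) = (g' : L →+* L).comp (algebraMap (𝓞 L) L) := by
    refine RingHom.ext fun x => ?_
    exact congrArg (fun r : 𝓞 L →+* 𝓞 L => ((r x : 𝓞 L) : L)) h
  have h2 := IsLocalization.ringHom_ext (nonZeroDivisors (𝓞 L)) h1
  refine AlgEquiv.ext fun x => ?_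
  exact RingHom.congr_fun h2 x

theorem card_over_dvd {k : Type} [Field k] (φ : 𝓞 K →+* k) (hne : Nonempty (Over L φ)) :
    Nat.card (Over L φ) ∣ Nat.card Gal(L/K) := by
  let _ : MulAction Gal(L/K) (Over L φ) :=
    { smul := fun h Ψ => ⟨Ψ.1.comp (ri h⁻¹), by rw [RingHom.comp_assoc, ri_base, Ψ.2]⟩
      one_smul := fun Ψ => by
        apply Subtype.ext
        change Ψ.1.comp (ri (1 : Gal(L/K))⁻¹) = Ψ.1
        rw [inv_one, ri_one, RingHom.comp_id]
      mul_smul := fun g h Ψ => by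
        apply Subtype.ext
        change Ψ.1.comp (ri (g * h)⁻¹) = (Ψ.1.comp (ri h⁻¹)).comp (ri g⁻¹)
        rw [RingHom.comp_assoc, ← ri_mul, mul_inv_rev] }
  have hsmul : ∀ (h : Gal(L/K)) (Ψ : Over L φ), (h • Ψ).1 = Ψ.1.comp (ri h⁻¹) := fun _ _ => rfl
  have htr : MulAction.IsPretransitive Gal(L/K) (Over L φ) := by
    constructor
    intro Ψ Ψ'
    obtain ⟨σ, hσ⟩ := tw_bot (K := K) Ψ.1 Ψ'.1 (by rw [Ψ.2, Ψ'.2])
    refine ⟨σ⁻¹, Subtype.ext ?_⟩
    rw [hsmul, inv_inv, hσ]
  obtain ⟨x⟩ := hne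
  rw [← MulAction.index_stabilizer_of_transitive Gal(L/K) x]
  exact Subgroup.index_dvd_card _

/-- all residue degrees and the number of the primes are odd -/
theorem fib_odd (ho : Odd (Nat.card Gal(L/K))) (v : HeightOneSpectrum (𝓞 K)) :
    Odd (Fintype.card (Fib L v)) ∧ ∀ w : Fib L v, Odd (fdeg w) := by
  classical
  have hN : 0 < ∏ w : Fib L v, fdeg w := Finset.prod_pos fun w _ => fdeg_pos w
  obtain ⟨l, iF, iFin, iA, hl⟩ := exists_ext (𝓞 K ⧸ v.asIdeal) hN
  have hdvd : ∀ w : Fib L v, fdeg w ∣ Module.finrank (𝓞 K ⧸ v.asIdeal) l := fun w => by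
    rw [hl]
    exact Finset.dvd_prod_of_mem _ (Finset.mem_univ w)
  have hex : ∀ w : Fib L v, ∃ ψ : Over L (base v l), kerFib ψ = w := by
    intro w
    have h1 : Nat.card ((𝓞 L ⧸ w.1.asIdeal) →ₐ[𝓞 K ⧸ v.asIdeal] l) = fdeg w := by
      rw [card_algHom]
      exact if_pos (hdvd w)
    have h2 : 0 < Nat.card ((𝓞 L ⧸ w.1.asIdeal) →ₐ[𝓞 K ⧸ v.asIdeal] l) := by
      rw [h1]
      exact fdeg_pos w
    obtain ⟨⟨χ⟩, -⟩ := Nat.card_pos_iff.1 h2
    exact ⟨((kerEquiv w).symm χ).1, ((kerEquiv w).symm χ).2⟩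
  -- the residue degrees are equal
  have hcard : ∀ (w : Fib L v) (ψ : Over L (base v l)), kerFib ψ = w →
      Nat.card ψ.1.range = nm v ^ fdeg w := by
    rintro w ψ rfl
    rw [← nm_fib]
    exact Nat.card_congr (RingHom.quotientKerEquivRange ψ.1).symm.toEquiv
  have heq : ∀ w w' : Fib L v, fdeg w = fdeg w' := by
    intro w w'
    obtain ⟨ψ, hψ⟩ := hex w
    obtain ⟨ψ', hψ'⟩ := hex w'
    obtain ⟨σ, hσ⟩ := tw_bot (K := K) ψ.1 ψ'.1 (by rw [ψ.2, ψ'.2])
    have h1 : ψ'.1.range = ψ.1.range := by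
      rw [hσ]
      ext y
      constructor
      · rintro ⟨x, rfl⟩
        exact ⟨ri σ x, rfl⟩
      · rintro ⟨x, rfl⟩
        refine ⟨ri σ⁻¹ x, ?_⟩
        have h2 : (ri σ).comp (ri σ⁻¹) = RingHom.id (𝓞 L) := by
          rw [← ri_mul, mul_inv_cancel, ri_one]
        change ψ.1 (((ri σ).comp (ri σ⁻¹)) x) = ψ.1 x
        rw [h2]
        rfl
    have h2 := hcard w ψ hψ
    rw [← h1, hcard w' ψ' hψ'] at h2
    exact (Nat.pow_right_injective (Pool.Agent.H921R2.TatePole.two_le_nm v) h2).symm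
  have hsum : nh L (base v l) = ∑ w : Fib L v, fdeg w := by
    rw [nh_eq]
    exact Finset.sum_congr rfl fun w _ => if_pos (hdvd w)
  have hFne : Nonempty (Fib L v) := by
    obtain ⟨Ψ, hΨ⟩ := exists_lift (A := 𝓞 K) (B := 𝓞 L) (Ω := AlgebraicClosure (𝓞 K ⧸ v.asIdeal))
      ((algebraMap (𝓞 K ⧸ v.asIdeal) (AlgebraicClosure (𝓞 K ⧸ v.asIdeal))).comp
        (Ideal.Quotient.mk v.asIdeal))
    exact ⟨kerFib (v := v) (k := AlgebraicClosure (𝓞 K ⧸ v.asIdeal)) ⟨Ψ, hΨ⟩⟩
  obtain ⟨w0⟩ := hFne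
  have hne : Nonempty (Over L (base v l)) := ⟨(hex w0).choose⟩
  have h1 := card_over_dvd (base v l) hne
  have h2 : Nat.card (Over L (base v l)) = Fintype.card (Fib L v) * fdeg w0 := by
    change nh L (base v l) = _
    rw [hsum, Finset.sum_congr rfl fun w _ => heq w w0, Finset.sum_const, Finset.card_univ,
      smul_eq_mul]
  rw [h2] at h1
  have h3 := ho.of_dvd_nat h1
  rw [Nat.odd_mul] at h3
  exact ⟨h3.1, fun w => by rw [heq w w0]; exact h3.2⟩

theorem nf_full (ho : Odd (Nat.card Gal(L/K))) (Fr : ℂ →+* ℂ) (hFr : Fr.comp Fr = RingHom.id ℂ)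
    (φ : 𝓞 K →+* ℂ) (hφ : Fr.comp φ = φ) : nf L φ Fr = Nat.card Gal(L/K) := by
  have hfix : ∀ Ψ : 𝓞 L →+* ℂ, Ψ.comp (algebraMap (𝓞 K) (𝓞 L)) = φ → Fr.comp Ψ = Ψ := by
    intro Ψ hΨ
    obtain ⟨c, hc⟩ := tw_bot (K := K) Ψ (Fr.comp Ψ) (by rw [RingHom.comp_assoc, hΨ, hφ])
    have h1 : Ψ = Ψ.comp (ri (c * c)) := by
      calc Ψ = (Fr.comp Fr).comp Ψ := by rw [hFr, RingHom.id_comp]
        _ = Fr.comp (Fr.comp Ψ) := RingHom.comp_assoc _ _ _
        _ = (Fr.comp Ψ).comp (ri c) := by rw [hc, ← RingHom.comp_assoc, hc]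
        _ = _ := by rw [hc, RingHom.comp_assoc, ← ri_mul]
    have h2 : ri (c * c) = ri (1 : Gal(L/K)) := by
      refine RingHom.ext fun x => inj_of_int Ψ ?_
      exact (RingHom.congr_fun h1 x).symm
    have h3 : c * c = 1 := ri_inj h2
    have h4 : orderOf c ∣ 2 := orderOf_dvd_of_pow_eq_one (by rw [pow_two, h3])
    have h5 : orderOf c ∣ Nat.card Gal(L/K) := orderOf_dvd_natCard c
    have h6 : orderOf c = 1 := by
      rcases (Nat.dvd_prime Nat.prime_two).1 h4 with h | h
      · exact h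
      · rw [h] at h5
        exact absurd ho (Nat.not_odd_iff_even.2 (even_iff_two_dvd.2 h5))
    rw [orderOf_eq_one_iff] at h6
    rw [hc, h6, ri_one, RingHom.comp_id]
  obtain ⟨Ψ0, hΨ0⟩ := exists_lift (A := 𝓞 K) (B := 𝓞 L) φ
  have hb : ∀ g : Gal(L/K), (Ψ0.comp (ri g)).comp (algebraMap (𝓞 K) (𝓞 L)) = φ := fun g => by
    rw [RingHom.comp_assoc, ri_base, hΨ0]
  unfold nf
  symm
  refine Nat.card_congr (Equiv.ofBijective (fun g : Gal(L/K) =>
    (⟨Ψ0.comp (ri g), hb g, hfix _ (hb g)⟩ :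
      {ψ : 𝓞 L →+* ℂ // ψ.comp (algebraMap (𝓞 K) (𝓞 L)) = φ ∧ Fr.comp ψ = ψ})) ⟨?_, ?_⟩)
  · intro g g' h
    have h1 : Ψ0.comp (ri g) = Ψ0.comp (ri g') := congrArg Subtype.val h
    exact ri_inj (RingHom.ext fun x => inj_of_int Ψ0 (RingHom.congr_fun h1 x))
  · intro Ψ
    obtain ⟨σ, hσ⟩ := tw_bot (K := K) Ψ0 Ψ.1 (by rw [hΨ0, Ψ.2.1])
    exact ⟨σ, Subtype.ext hσ.symm⟩

open Classical in
theorem inf_odd (ho : Odd (Nat.card Gal(L/K))) :
    Fintype.card (InfinitePlace L) = Nat.card Gal(L/K) * Fintype.card (InfinitePlace K) := by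
  have key : ∀ Fr : ℂ →+* ℂ, Fr.comp Fr = RingHom.id ℂ →
      Nat.card (Fix L Fr) = Nat.card Gal(L/K) * Nat.card (Fix K Fr) := by
    intro Fr hFr
    let _ : Fintype (Fix K Fr) := Fintype.ofFinite _
    rw [card_fix (K := K), Finset.sum_congr rfl fun φ _ => nf_full ho Fr hFr φ.1 φ.2,
      Finset.sum_const, Finset.card_univ, smul_eq_mul, Nat.card_eq_fintype_card (α := Fix K Fr),
      mul_comm]
  have h1 := two_mul_inf L
  have h2 := two_mul_inf K
  rw [key _ (RingHom.ext fun x => Complex.conj_conj x), key _ (RingHom.id_comp _), ← mul_add,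
    ← h2] at h1
  have h3 : 2 * Fintype.card (InfinitePlace L) =
      2 * (Nat.card Gal(L/K) * Fintype.card (InfinitePlace K)) := by rw [h1]; ring
  exact Nat.eq_of_mul_eq_mul_left two_pos h3

theorem ns_odd (ho : Odd (Nat.card Gal(L/K))) {E : WeierstrassCurve K} (hE : E.IsElliptic)
    (hs : ∀ v, SemiAt E v) : Even (ns (E.map (algebraMap K L)) + ns E) := by
  classical
  obtain ⟨S, hS⟩ := finite_bad hE
  choose g hg hg1 hg2 using fun v => exists_loc hE v (hs v)
  have h1 : ns (E.map (algebraMap K L)) = ∑ v ∈ S, Fintype.card (Fib L v) * g v 1 := by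
    rw [ns_eq E S (hS L)]
    refine Finset.sum_congr rfl fun v _ => ?_
    rw [Finset.sum_congr rfl fun w _ => (hg v L w).trans (hg2 v _ ((fib_odd ho v).2 w)),
      Finset.sum_const, Finset.card_univ, smul_eq_mul]
  have h2 : ns E = ∑ v ∈ S, g v 1 := by
    rw [ns_self E S (finite_bad_self hS)]
    exact Finset.sum_congr rfl fun v _ => hg1 v
  rw [h1, h2, ← Finset.sum_add_distrib]
  refine Finset.even_sum _ fun v _ => ?_
  obtain ⟨a, ha⟩ := (fib_odd ho v).1
  rw [ha]
  exact ⟨(a + 1) * g v 1, by ring⟩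

/-- **Root numbers in Galois extensions of odd degree.** -/
theorem rex_odd (ho : Odd (Nat.card Gal(L/K))) {E : WeierstrassCurve K} (hE : E.IsElliptic)
    (hs : ∀ v, SemiAt E v) : Even (rex (E.map (algebraMap K L)) + rex E) := by
  classical
  obtain ⟨a, ha⟩ := ns_odd ho hE hs
  unfold rex
  have h1 := inf_odd (K := K) (L := L) ho
  obtain ⟨b, hb⟩ := ho
  rw [hb] at h1
  refine ⟨a + (b + 1) * Fintype.card (InfinitePlace K), ?_⟩
  have h2 : Fintype.card (InfinitePlace L) = (2 * b + 1) * Fintype.card (InfinitePlace K) := by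
    convert h1
  rw [h2]
  linarith

end places

end Pool.Agent.R333.BR
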