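import Pool.Agent.R333.BR.LRel
import Pool.Agent.R333.BR.Pts

/-! The orders of vanishing at `s = 1` and the ranks satisfy the same relations. -/

set_option autoImplicit false

namespace Pool.Agent.R333.BR

open NumberField IsDedekindDomain Filter Topology
open Pool.Agent.H341R2.EC
open Pool.Agent.R433.MD

section
variable {U : Set ℂ}

theorem half_nhds : ∀ᶠ s in 𝓝 (2 : ℂ), 3 / 2 < s.re := by
  have h3 : IsOpen {s : ℂ | 3 / 2 < s.re} := isOpen_lt continuous_const Complex.continuous_re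
  exact h3.mem_nhds (show (3 / 2 : ℝ) < (2 : ℂ).re by norm_num)

theorem order_eq (hU : IsPreconnected U) (hH : ∀ s : ℂ, 3 / 2 < s.re → s ∈ U) (h1 : (1 : ℂ) ∈ U)
    {f g : ℂ → ℂ} (hf : MeromorphicOn f U) (hg : MeromorphicOn g U)
    (h : ∀ s : ℂ, 3 / 2 < s.re → f s = g s) :
    meromorphicOrderAt f 1 = meromorphicOrderAt g 1 := by
  have hh : MeromorphicOn (fun s => f s - g s) U := hf.fun_sub hg
  have h2 : meromorphicOrderAt (fun s => f s - g s) 2 = ⊤ := by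
    rw [meromorphicOrderAt_eq_top_iff]
    apply eventually_nhdsWithin_of_eventually_nhds
    filter_upwards [half_nhds] with s hs
    rw [h s hs, sub_self]
  have h2U : (2 : ℂ) ∈ U := hH 2 (by norm_num)
  have h4 : meromorphicOrderAt (fun s => f s - g s) 1 = ⊤ := by
    by_contra h5
    exact hh.meromorphicOrderAt_ne_top_of_isPreconnected hU h1 h2U h5 h2
  rw [meromorphicOrderAt_eq_top_iff] at h4
  exact meromorphicOrderAt_congr (h4.mono fun s hs => sub_eq_zero.1 hs)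

theorem order_ne_top (hU : IsPreconnected U) (hH : ∀ s : ℂ, 3 / 2 < s.re → s ∈ U)
    (h1 : (1 : ℂ) ∈ U) {f : ℂ → ℂ} (hf : MeromorphicOn f U)
    (h : ∀ s : ℂ, 3 / 2 < s.re → f s ≠ 0) : meromorphicOrderAt f 1 ≠ ⊤ := by
  have h2 : meromorphicOrderAt f 2 ≠ ⊤ := by
    rw [Ne, meromorphicOrderAt_eq_top_iff]
    intro h3
    have h4 : ∀ᶠ s in 𝓝[≠] (2 : ℂ), 3 / 2 < s.re :=
      eventually_nhdsWithin_of_eventually_nhds half_nhds
    obtain ⟨s, hs1, hs2⟩ := (h3.and h4).exists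
    exact h s hs2 hs1
  exact hf.meromorphicOrderAt_ne_top_of_isPreconnected hU (hH 2 (by norm_num)) h1 h2

variable {K L : Type} [Field K] [NumberField K] [Field L] [NumberField L] [Algebra K L]
  [IsGalois K L]

/-- **Artin formalism for the orders of vanishing.** -/
theorem ord_rel (hU : IsPreconnected U) (hH : ∀ s : ℂ, 3 / 2 < s.re → s ∈ U) (h1 : (1 : ℂ) ∈ U)
    {ι : Type} [Fintype ι] (Z : ι → Ext K) (f : ∀ i, (Z i).F →ₐ[K] L) (e : ι → ℤ)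
    (m : ℕ) (h : ∀ g : Gal(L/K), ∑ i, e i * fx (f i).fieldRange.fixingSubgroup g = m)
    (E : WeierstrassCurve K) (hE : E.IsElliptic)
    (V0 : HeightOneSpectrum (𝓞 K) → WeierstrassCurve (𝓞 K)) (hV0 : ∀ v, IsMinAt E v (V0 v))
    (VZ : ∀ i, HeightOneSpectrum (𝓞 (Z i).F) → WeierstrassCurve (𝓞 (Z i).F))
    (hVZ : ∀ i w, IsMinAt (E.map (algebraMap K (Z i).F)) w (VZ i w))
    {Λ0 : ℂ → ℂ} (hΛ0 : MeromorphicOn Λ0 U) (hL0 : ∀ s : ℂ, 3 / 2 < s.re → Λ0 s = LL V0 s)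
    {Λ : ι → ℂ → ℂ} (hΛ : ∀ i, MeromorphicOn (Λ i) U)
    (hL : ∀ i (s : ℂ), 3 / 2 < s.re → Λ i s = LL (VZ i) s) (r : ι → ℤ)
    (hr : ∀ i, meromorphicOrderAt (Λ i) 1 = r i) :
    ∃ r0 : ℤ, meromorphicOrderAt Λ0 1 = r0 ∧ (m : ℤ) * r0 = ∑ i, e i * r i := by
  obtain ⟨R, hR, hR1, hRL⟩ := L_rel Z f e m h E hE V0 hV0 VZ hVZ
  have hRU : MeromorphicOn R U := fun x _ => hR x trivial
  have h2 : meromorphicOrderAt (Λ0 ^ m) 1 =
      meromorphicOrderAt (R * ∏ i, (Λ i) ^ (e i)) 1 := by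
    refine order_eq hU hH h1 (hΛ0.pow m)
      (hRU.mul (MeromorphicOn.prod fun i _ => (hΛ i).zpow _)) fun s hs => ?_
    rw [Pi.pow_apply, Pi.mul_apply, Finset.prod_apply, hL0 s hs, (hRL s hs).2]
    congr 1
    refine Finset.prod_congr rfl fun i _ => ?_
    rw [Pi.pow_apply, hL i s hs]
  have h3 : meromorphicOrderAt Λ0 1 ≠ ⊤ := order_ne_top hU hH h1 hΛ0 fun s hs => by
    rw [hL0 s hs]
    exact LL_ne_zero hE hV0 hs
  obtain ⟨r0, hr0⟩ := WithTop.ne_top_iff_exists.1 h3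
  refine ⟨r0, hr0.symm, ?_⟩
  rw [meromorphicOrderAt_pow (hΛ0 1 h1), meromorphicOrderAt_mul (hR 1 trivial)
    (MeromorphicAt.prod fun i _ => (hΛ i 1 h1).zpow _), hR1, zero_add,
    meromorphicOrderAt_prod fun i _ => (hΛ i 1 h1).zpow _, ← hr0] at h2
  have h4 : ∀ i, meromorphicOrderAt (Λ i ^ e i) 1 = ((e i * r i : ℤ) : WithTop ℤ) := fun i => by
    rw [meromorphicOrderAt_zpow (hΛ i 1 h1), hr i]
    rfl
  rw [Finset.sum_congr rfl fun i _ => h4 i] at h2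
  have h5 : (((m : ℤ) * r0 : ℤ) : WithTop ℤ) = ((∑ i, e i * r i : ℤ) : WithTop ℤ) := by
    rw [WithTop.coe_sum, ← h2]
    rfl
  exact WithTop.coe_injective h5

/-- continuation -/
theorem cont_rel {ι : Type} [Fintype ι] (Z : ι → Ext K) (f : ∀ i, (Z i).F →ₐ[K] L) (e : ι → ℤ)
    (h : ∀ g : Gal(L/K), ∑ i, e i * fx (f i).fieldRange.fixingSubgroup g = (1 : ℕ))
    (E : WeierstrassCurve K) (hE : E.IsElliptic)
    (VZ : ∀ i, HeightOneSpectrum (𝓞 (Z i).F) → WeierstrassCurve (𝓞 (Z i).F))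
    (hVZ : ∀ i w, IsMinAt (E.map (algebraMap K (Z i).F)) w (VZ i w))
    {Λ : ι → ℂ → ℂ} (hΛ : ∀ i, MeromorphicOn (Λ i) U)
    (hL : ∀ i (s : ℂ), 3 / 2 < s.re → Λ i s = LL (VZ i) s) :
    ∃ (V0 : HeightOneSpectrum (𝓞 K) → WeierstrassCurve (𝓞 K)) (Λ0 : ℂ → ℂ),
      (∀ v, IsMinAt E v (V0 v)) ∧ MeromorphicOn Λ0 U ∧
      ∀ s : ℂ, 3 / 2 < s.re → Λ0 s = LL V0 s := by
  obtain ⟨V0, hV0⟩ := exists_minimal E hE
  obtain ⟨R, hR, -, hRL⟩ := L_rel Z f e 1 h E hE V0 hV0 VZ hVZ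
  have hRU : MeromorphicOn R U := fun x _ => hR x trivial
  refine ⟨V0, R * ∏ i, (Λ i) ^ (e i), hV0,
    hRU.mul (MeromorphicOn.prod fun i _ => (hΛ i).zpow _), fun s hs => ?_⟩
  have h2 := (hRL s hs).2
  rw [pow_one] at h2
  rw [h2, Pi.mul_apply, Finset.prod_apply]
  congr 1
  refine Finset.prod_congr rfl fun i _ => ?_
  rw [Pi.pow_apply, hL i s hs]

end

end Pool.Agent.R333.BR
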