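import Pool.Agent.R333.BR.Fixd

/-! Permutation relations: the primes above a prime and the infinite places. -/

set_option autoImplicit false

namespace Pool.Agent.R333.BR

open NumberField IsDedekindDomain Polynomial
open Pool.Agent.R433.MD

theorem frob_fix {k Ω : Type} [Field k] [Finite k] [Field Ω] [Algebra k Ω] (x : Ω)
    (hx : x ^ Nat.card k = x) : ∃ y : k, algebraMap k Ω y = x := by
  classical
  let _ : Fintype k := Fintype.ofFinite _
  rw [Nat.card_eq_fintype_card] at hx
  by_contra hne
  push Not at hne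
  have h1 : (X ^ Fintype.card k - X : Polynomial Ω) ≠ 0 :=
    FiniteField.X_pow_card_sub_X_ne_zero Ω Fintype.one_lt_card
  have h2 : insert x (Finset.univ.image (algebraMap k Ω)) ⊆
      (X ^ Fintype.card k - X : Polynomial Ω).roots.toFinset := by
    intro y hy
    rw [Multiset.mem_toFinset, mem_roots h1, IsRoot, eval_sub, eval_pow, eval_X, sub_eq_zero]
    rcases Finset.mem_insert.1 hy with rfl | hy
    · exact hx
    · obtain ⟨z, -, rfl⟩ := Finset.mem_image.1 hy
      rw [← map_pow, FiniteField.pow_card]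
  have h3 := Finset.card_le_card h2
  rw [Finset.card_insert_of_notMem (by
    intro h
    obtain ⟨z, -, hz⟩ := Finset.mem_image.1 h
    exact hne z hz), Finset.card_image_of_injective _ (algebraMap k Ω).injective,
    Finset.card_univ] at h3
  have h4 : (X ^ Fintype.card k - X : Polynomial Ω).roots.toFinset.card ≤ Fintype.card k := by
    refine (Multiset.toFinset_card_le _).trans ((card_roots' _).trans ?_)
    rw [FiniteField.X_pow_card_sub_X_natDegree_eq Ω Fintype.one_lt_card]
  omega

theorem nh_eq_nf {K F : Type} [Field K] [NumberField K] [Field F] [NumberField F] [Algebra K F]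
    {k Ω : Type} [Field k] [Fintype k] [Field Ω] [Algebra k Ω] (φ : 𝓞 K →+* k) :
    nh F φ = nf F ((algebraMap k Ω).comp φ) (FiniteField.frobeniusAlgHom k Ω : Ω →+* Ω) := by
  classical
  have hfr : ∀ x : Ω, (FiniteField.frobeniusAlgHom k Ω : Ω →+* Ω) x = x ^ Nat.card k := fun x => by
    rw [Nat.card_eq_fintype_card]
    rfl
  have hinj := (algebraMap k Ω).injective
  unfold nh nf
  refine Nat.card_congr (Equiv.ofBijective (fun ψ => ⟨(algebraMap k Ω).comp ψ.1, ?_, ?_⟩) ⟨?_, ?_⟩)
  · rw [RingHom.comp_assoc, ψ.2]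
  · refine RingHom.ext fun x => ?_
    exact (FiniteField.frobeniusAlgHom k Ω).commutes (ψ.1 x)
  · intro ψ ψ' h
    apply Subtype.ext
    refine RingHom.ext fun x => hinj ?_
    exact RingHom.congr_fun (congrArg Subtype.val h) x
  · intro ψ
    have h1 : ∀ x, ∃ y : k, algebraMap k Ω y = ψ.1 x := by
      intro x
      apply frob_fix
      rw [← hfr]
      exact RingHom.congr_fun ψ.2.2 x
    choose g hg using h1
    let ψ0 : 𝓞 F →+* k :=
      { toFun := g
        map_one' := hinj (by rw [hg, map_one, map_one])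
        map_zero' := hinj (by rw [hg, map_zero, map_zero])
        map_add' := fun x y => hinj (by rw [hg, map_add, map_add, hg, hg])
        map_mul' := fun x y => hinj (by rw [hg, map_mul, map_mul, hg, hg]) }
    have h2 : (algebraMap k Ω).comp ψ0 = ψ.1 := RingHom.ext fun x => hg x
    refine ⟨⟨ψ0, RingHom.ext fun x => hinj ?_⟩, Subtype.ext h2⟩
    have h3 := RingHom.congr_fun ψ.2.1 x
    rw [← h2] at h3
    exact h3

section rel

variable {K L : Type} [Field K] [NumberField K] [Field L] [NumberField L] [Algebra K L]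
  [IsGalois K L] {ι : Type} [Fintype ι] (Z : ι → Ext K) (f : ∀ i, (Z i).F →ₐ[K] L) (e : ι → ℤ)
  (m : ℕ)

/-- the relation at all primes -/
theorem nh_rel (h : ∀ g : Gal(L/K), ∑ i, e i * fx (f i).fieldRange.fixingSubgroup g = m)
    {k : Type} [Field k] [Finite k] (φ : 𝓞 K →+* k) : ∑ i, e i * (nh (Z i).F φ : ℤ) = m := by
  classical
  let _ : Fintype k := Fintype.ofFinite _
  rw [← nf_rel ((algebraMap k (AlgebraicClosure k)).comp φ)
    (FiniteField.frobeniusAlgHom k (AlgebraicClosure k) : AlgebraicClosure k →+* AlgebraicClosure k)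
    Z f e m h (by
      refine RingHom.ext fun x => ?_
      exact (FiniteField.frobeniusAlgHom k (AlgebraicClosure k)).commutes (φ x))]
  refine Finset.sum_congr rfl fun i _ => ?_
  rw [nh_eq_nf (Ω := AlgebraicClosure k)]

/-- sums over the primes above `v` -/
theorem fib_rel (h : ∀ g : Gal(L/K), ∑ i, e i * fx (f i).fieldRange.fixingSubgroup g = m)
    (v : HeightOneSpectrum (𝓞 K)) (g : ℕ → ℤ) :
    ∑ i, e i * ∑ w : Fib (Z i).F v, g (fdeg w) = m * g 1 := by
  classical
  let T : Option ι → Type := fun i => match i with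
    | none => Unit
    | some i => Fib (Z i).F v
  let _ : ∀ i, Fintype (T i) := fun i => match i with
    | none => (inferInstance : Fintype Unit)
    | some i => (inferInstance : Fintype (Fib (Z i).F v))
  let d : ∀ i, T i → ℕ := fun i => match i with
    | none => fun _ => 1
    | some i => fun w => fdeg w
  let a : Option ι → ℕ := fun i => match i with
    | none => 0
    | some i => (e i).toNat
  let b : Option ι → ℕ := fun i => match i with
    | none => m
    | some i => (-e i).toNat
  have hcomb := fun G : ℕ → ℂ => comb T d (by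
    rintro (_ | i) t
    · exact one_pos
    · exact fdeg_pos t) a b (by
    intro n hn
    obtain ⟨k, iF, iFin, iA, hk⟩ := exists_ext (𝓞 K ⧸ v.asIdeal) hn
    have h1 := nh_rel Z f e m h (base v k)
    simp only [nh_eq, hk] at h1
    simp only [Fintype.sum_option]
    have e1 : ∀ i : ι, ∑ t : T (some i), (if d (some i) t ∣ n then d (some i) t else 0) =
        ∑ w : Fib (Z i).F v, if fdeg w ∣ n then fdeg w else 0 := fun i => rfl
    have e2 : ∑ t : T none, (if d none t ∣ n then d none t else 0) = 1 := by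
      change ∑ t : Unit, (if 1 ∣ n then 1 else 0) = 1
      simp
    rw [e2]
    simp only [e1, a, b, zero_add, mul_one]
    have h2 : ((∑ i, (e i).toNat * ∑ w : Fib (Z i).F v, (if fdeg w ∣ n then fdeg w else 0) : ℕ) : ℤ) =
        ((m + ∑ i, (-e i).toNat * ∑ w : Fib (Z i).F v, (if fdeg w ∣ n then fdeg w else 0) : ℕ) : ℤ) := by
      rw [Nat.cast_add, ← h1, Nat.cast_sum, Nat.cast_sum, ← Finset.sum_add_distrib]
      refine Finset.sum_congr rfl fun i _ => ?_
      have h7 := Int.toNat_sub_toNat_neg (e i)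
      rw [Nat.cast_mul, Nat.cast_mul]
      linear_combination ((∑ w : Fib (Z i).F v, (if fdeg w ∣ n then fdeg w else 0) : ℕ) : ℤ) * h7
    exact_mod_cast h2) G
  -- additive version
  have hexp : ∀ (G : ℕ → ℕ), ∑ i, (e i).toNat * ∑ w : Fib (Z i).F v, G (fdeg w) =
      m * G 1 + ∑ i, (-e i).toNat * ∑ w : Fib (Z i).F v, G (fdeg w) := by
    intro G
    have h1 := hcomb fun n => (2 : ℂ) ^ G n
    simp only [Finset.prod_pow_eq_pow_sum, ← pow_mul] at h1
    have e1 : ∀ i : ι, ∑ t : T (some i), G (d (some i) t) = ∑ w : Fib (Z i).F v, G (fdeg w) :=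
      fun i => rfl
    have e2 : ∑ t : T none, G (d none t) = G 1 := by
      change ∑ t : Unit, G 1 = G 1
      simp
    have h2 := Nat.pow_right_injective (le_refl 2) (by exact_mod_cast h1 : (2 : ℕ) ^ _ = 2 ^ _)
    simp only [Fintype.sum_option, e1, e2, a, b, mul_zero, zero_add] at h2
    rw [mul_comm m, Finset.sum_congr rfl fun i _ => mul_comm ((e i).toNat) _, h2]
    congr 1
    exact Finset.sum_congr rfl fun i _ => mul_comm _ _
  have hz : ∀ (G : ℕ → ℕ), ∑ i, e i * ∑ w : Fib (Z i).F v, (G (fdeg w) : ℤ) = m * G 1 := by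
    intro G
    have h1 : ((∑ i, (e i).toNat * ∑ w : Fib (Z i).F v, G (fdeg w) : ℕ) : ℤ) =
      ((m * G 1 + ∑ i, (-e i).toNat * ∑ w : Fib (Z i).F v, G (fdeg w) : ℕ) : ℤ) := by
      rw [hexp G]
    push_cast at h1
    rw [← sub_eq_iff_eq_add, ← Finset.sum_sub_distrib] at h1
    rw [← h1]
    refine Finset.sum_congr rfl fun i _ => ?_
    have h7 := Int.toNat_sub_toNat_neg (e i)
    linear_combination (-(∑ w : Fib (Z i).F v, (G (fdeg w) : ℤ))) * h7
  have h1 := hz fun n => (g n).toNat
  have h2 := hz fun n => (-g n).toNat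
  have h3 : ∀ n, g n = ((g n).toNat : ℤ) - ((-g n).toNat : ℤ) := fun n =>
    (Int.toNat_sub_toNat_neg (g n)).symm
  calc ∑ i, e i * ∑ w : Fib (Z i).F v, g (fdeg w)
      = ∑ i, e i * ∑ w : Fib (Z i).F v, (((g (fdeg w)).toNat : ℤ) - ((-g (fdeg w)).toNat : ℤ)) := by
        refine Finset.sum_congr rfl fun i _ => ?_
        rw [Finset.sum_congr rfl fun w _ => h3 (fdeg w)]
    _ = m * ((g 1).toNat : ℤ) - m * ((-g 1).toNat : ℤ) := by
        rw [← h1, ← h2, ← Finset.sum_sub_distrib]
        refine Finset.sum_congr rfl fun i _ => ?_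
        rw [Finset.sum_sub_distrib, mul_sub]
    _ = m * g 1 := by
        rw [← mul_sub, ← h3]

end rel

end Pool.Agent.R333.BR
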