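import Pool.Agent.R333.BR.Mult

/-! Split multiplicative reduction in extensions. -/

set_option autoImplicit false

namespace Pool.Agent.R333.BR

open NumberField IsDedekindDomain
open Pool.Agent.R433.MD
open Pool.Agent.H341R2.EC

section local_theory

variable {K : Type} [Field K] [NumberField K]

/-- `W` has `a₃, a₄, a₆` in `v` and `c₄` not in `v` -/
def NodeAt (v : HeightOneSpectrum (𝓞 K)) (W : WeierstrassCurve (𝓞 K)) : Prop :=
  W.a₃ ∈ v.asIdeal ∧ W.a₄ ∈ v.asIdeal ∧ W.a₆ ∈ v.asIdeal ∧ W.c₄ ∉ v.asIdeal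

/-- the tangent directions at the node -/
def TangentAt (v : HeightOneSpectrum (𝓞 K)) (W : WeierstrassCurve (𝓞 K)) : Prop :=
  ∃ t : 𝓞 K, t ^ 2 + W.a₁ * t - W.a₂ ∈ v.asIdeal

/-- split multiplicative reduction -/
def Split (E : WeierstrassCurve K) (v : HeightOneSpectrum (𝓞 K)) : Prop :=
  ∃ W : WeierstrassCurve (𝓞 K), IsModel E W ∧ NodeAt v W ∧ TangentAt v W

/-- semistable reduction -/
def SemiAt (E : WeierstrassCurve K) (v : HeightOneSpectrum (𝓞 K)) : Prop :=
  ∃ W : WeierstrassCurve (𝓞 K), IsModel E W ∧ (W.Δ ∉ v.asIdeal ∨ W.c₄ ∉ v.asIdeal)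

omit [NumberField K] in
theorem node_disc {v : HeightOneSpectrum (𝓞 K)} {W : WeierstrassCurve (𝓞 K)} (h : NodeAt v W) :
    W.Δ ∈ v.asIdeal := by
  obtain ⟨h3, h4, h6, -⟩ := h
  rw [← Ideal.Quotient.eq_zero_iff_mem] at h3 h4 h6 ⊢
  rw [← WeierstrassCurve.map_Δ, WeierstrassCurve.Δ, WeierstrassCurve.b₂, WeierstrassCurve.b₄,
    WeierstrassCurve.b₆, WeierstrassCurve.b₈, WeierstrassCurve.map_a₃, WeierstrassCurve.map_a₄,
    WeierstrassCurve.map_a₆, h3, h4, h6]
  ring

/-- models with `c₄` not in `v` are minimal at `v` -/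
theorem min_of_c4 {E : WeierstrassCurve K} {v : HeightOneSpectrum (𝓞 K)}
    {W : WeierstrassCurve (𝓞 K)} (hW : IsModel E W) (hc : W.c₄ ∉ v.asIdeal) : IsMinAt E v W := by
  refine ⟨hW, fun W' hW' n hn => ?_⟩
  obtain ⟨C, hC⟩ := hW
  obtain ⟨C', hC'⟩ := hW'
  have hrel : (C * C'⁻¹) • W'.map (algebraMap (𝓞 K) K) = W.map (algebraMap (𝓞 K) K) := by
    rw [← hC', ← hC, smul_smul, mul_assoc, inv_mul_cancel, mul_one]
  set D := C * C'⁻¹ with hD
  have hc4 := congrArg WeierstrassCurve.c₄ hrel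
  have hΔ := congrArg WeierstrassCurve.Δ hrel
  rw [WeierstrassCurve.variableChange_c₄, WeierstrassCurve.map_c₄, WeierstrassCurve.map_c₄] at hc4
  rw [WeierstrassCurve.variableChange_Δ, WeierstrassCurve.map_Δ, WeierstrassCurve.map_Δ] at hΔ
  set u : K := ((D.u⁻¹ : Kˣ) : K) with hu
  have h1 := congrArg (v.valuation K) hc4
  have h2 := congrArg (v.valuation K) hΔ
  rw [map_mul, v.valuation_of_algebraMap, v.valuation_of_algebraMap, map_pow] at h1 h2
  have hcv : v.intValuation W.c₄ = 1 := by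
    rw [v.intValuation_eq_one_iff]
    exact hc
  rw [hcv] at h1
  have hc' : v.intValuation W'.c₄ ≤ 1 := v.intValuation_le_one _
  have h3 : 1 ≤ v.valuation K u := by
    by_contra h4
    push Not at h4
    have h5 : v.valuation K u ^ 4 < 1 := pow_lt_one₀ zero_le h4 (by norm_num)
    have h6 : v.valuation K u ^ 4 * v.intValuation W'.c₄ < 1 :=
      lt_of_le_of_lt (mul_le_of_le_one_right' hc') h5
    rw [h1] at h6
    exact lt_irrefl _ h6
  have h4 : v.intValuation W'.Δ ≤ v.intValuation W.Δ := by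
    rw [← h2]
    exact le_mul_of_one_le_left' (one_le_pow₀ h3)
  rw [← v.intValuation_le_pow_iff_mem] at hn ⊢
  exact h4.trans hn

omit [NumberField K] in
/-- changes of variables over the integers -/
theorem model_change {E : WeierstrassCurve K} {W : WeierstrassCurve (𝓞 K)} (hW : IsModel E W)
    (C : WeierstrassCurve.VariableChange (𝓞 K)) : IsModel E (C • W) := by
  obtain ⟨D, hD⟩ := hW
  refine ⟨C.map (algebraMap (𝓞 K) K) * D, ?_⟩
  rw [mul_smul, hD, WeierstrassCurve.map_variableChange]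

/-- multiplicative reduction: a model with the node at the origin -/
theorem exists_nodeAt {E : WeierstrassCurve K} {v : HeightOneSpectrum (𝓞 K)}
    {W : WeierstrassCurve (𝓞 K)} (hW : IsModel E W) (hΔ : W.Δ ∈ v.asIdeal)
    (hc : W.c₄ ∉ v.asIdeal) : ∃ W' : WeierstrassCurve (𝓞 K), IsModel E W' ∧ NodeAt v W' := by
  obtain ⟨x, y, h1, h2, h3⟩ := exists_node (red v W)
    (by rw [red, WeierstrassCurve.map_Δ, Ideal.Quotient.eq_zero_iff_mem]; exact hΔ)
    (by rw [red, WeierstrassCurve.map_c₄, Ne, Ideal.Quotient.eq_zero_iff_mem]; exact hc)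
  obtain ⟨r, rfl⟩ := Ideal.Quotient.mk_surjective x
  obtain ⟨t, rfl⟩ := Ideal.Quotient.mk_surjective y
  let C : WeierstrassCurve.VariableChange (𝓞 K) := ⟨1, r, 0, t⟩
  refine ⟨C • W, model_change hW C, ?_, ?_, ?_, ?_⟩
  · rw [← Ideal.Quotient.eq_zero_iff_mem, WeierstrassCurve.variableChange_a₃]
    simp only [C, inv_one, Units.val_one, one_pow, one_mul, map_add, map_mul, map_ofNat]
    exact h1
  · rw [← Ideal.Quotient.eq_zero_iff_mem, WeierstrassCurve.variableChange_a₄]
    simp only [C, inv_one, Units.val_one, one_pow, one_mul, map_add, map_sub, map_mul, map_ofNat,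
      map_pow, zero_mul, mul_zero, sub_zero, add_zero]
    simp only [red, WeierstrassCurve.map_a₁, WeierstrassCurve.map_a₂, WeierstrassCurve.map_a₄] at h2
    linear_combination h2
  · rw [← Ideal.Quotient.eq_zero_iff_mem, WeierstrassCurve.variableChange_a₆]
    simp only [C, inv_one, Units.val_one, one_pow, one_mul, map_add, map_sub, map_mul, map_pow]
    simp only [red, WeierstrassCurve.map_a₁, WeierstrassCurve.map_a₂, WeierstrassCurve.map_a₃,
      WeierstrassCurve.map_a₄, WeierstrassCurve.map_a₆] at h3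
    linear_combination h3
  · rw [WeierstrassCurve.variableChange_c₄]
    simpa [C] using hc

omit [NumberField K] in
/-- the tangent directions, in the residue field -/
theorem tangent_iff (v : HeightOneSpectrum (𝓞 K)) (W : WeierstrassCurve (𝓞 K)) :
    TangentAt v W ↔ ∃ t : 𝓞 K ⧸ v.asIdeal, t ^ 2 + (red v W).a₁ * t - (red v W).a₂ = 0 := by
  constructor
  · rintro ⟨t, ht⟩
    refine ⟨Ideal.Quotient.mk _ t, ?_⟩
    rw [← Ideal.Quotient.eq_zero_iff_mem, map_sub, map_add, map_mul, map_pow] at ht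
    exact ht
  · rintro ⟨t, ht⟩
    obtain ⟨t, rfl⟩ := Ideal.Quotient.mk_surjective t
    refine ⟨t, ?_⟩
    rw [← Ideal.Quotient.eq_zero_iff_mem, map_sub, map_add, map_mul, map_pow]
    exact ht

/-- independence of the model -/
theorem tangent_indep {E : WeierstrassCurve K} (hE : E.IsElliptic) {v : HeightOneSpectrum (𝓞 K)}
    {W W' : WeierstrassCurve (𝓞 K)} (hW : IsModel E W) (hW' : IsModel E W') (hn : NodeAt v W)
    (hn' : NodeAt v W') (ht : TangentAt v W) : TangentAt v W' := by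
  rw [tangent_iff] at ht ⊢
  have h0 : ∀ {V : WeierstrassCurve (𝓞 K)}, NodeAt v V → aff (red v V) +
      Nat.card {t : 𝓞 K ⧸ v.asIdeal // t ^ 2 + (red v V).a₁ * t - (red v V).a₂ = 0} =
        Nat.card (𝓞 K ⧸ v.asIdeal) + 1 := by
    intro V hV
    exact aff_node (red v V) (Ideal.Quotient.eq_zero_iff_mem.2 hV.1)
      (Ideal.Quotient.eq_zero_iff_mem.2 hV.2.1) (Ideal.Quotient.eq_zero_iff_mem.2 hV.2.2.1)
  have h1 := h0 hn
  have h2 := h0 hn'
  rw [(aff_minimal v hE (min_of_c4 hW hn.2.2.2) (min_of_c4 hW' hn'.2.2.2)).1] at h2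
  have h3 : Nat.card {t : 𝓞 K ⧸ v.asIdeal // t ^ 2 + (red v W').a₁ * t - (red v W').a₂ = 0} =
      Nat.card {t : 𝓞 K ⧸ v.asIdeal // t ^ 2 + (red v W).a₁ * t - (red v W).a₂ = 0} := by omega
  have h4 : 0 < Nat.card {t : 𝓞 K ⧸ v.asIdeal // t ^ 2 + (red v W).a₁ * t - (red v W).a₂ = 0} := by
    obtain ⟨t, ht⟩ := ht
    exact Nat.card_pos_iff.2 ⟨⟨⟨t, ht⟩⟩, inferInstance⟩
  rw [← h3] at h4
  obtain ⟨⟨⟨t, ht⟩⟩, -⟩ := Nat.card_pos_iff.1 h4
  exact ⟨t, ht⟩

theorem split_iff {E : WeierstrassCurve K} (hE : E.IsElliptic) {v : HeightOneSpectrum (𝓞 K)}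
    {W : WeierstrassCurve (𝓞 K)} (hW : IsModel E W) (hn : NodeAt v W) :
    Split E v ↔ TangentAt v W :=
  ⟨fun ⟨_, h1, h2, h3⟩ => tangent_indep hE h1 hW h2 hn h3, fun h => ⟨W, hW, hn, h⟩⟩

/-- good reduction is not split multiplicative -/
theorem not_split {E : WeierstrassCurve K} {v : HeightOneSpectrum (𝓞 K)}
    {W : WeierstrassCurve (𝓞 K)} (hW : IsModel E W) (hΔ : W.Δ ∉ v.asIdeal) : ¬ Split E v := by
  rintro ⟨W', hW', hn, -⟩
  have h1 := (min_of_c4 hW' hn.2.2.2).2 W hW 1 (by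
    rw [pow_one]
    exact node_disc hn)
  rw [pow_one] at h1
  exact hΔ h1

end local_theory

section extension

variable {K F : Type} [Field K] [NumberField K] [Field F] [NumberField F] [Algebra K F]

omit [NumberField K] [NumberField F] in
theorem model_ext {E : WeierstrassCurve K} {W : WeierstrassCurve (𝓞 K)} (hW : IsModel E W) :
    IsModel (E.map (algebraMap K F)) (W.map (algebraMap (𝓞 K) (𝓞 F))) := by
  obtain ⟨C, hC⟩ := hW
  refine ⟨C.map (algebraMap K F), ?_⟩
  rw [WeierstrassCurve.map_variableChange, hC, WeierstrassCurve.map_map, WeierstrassCurve.map_map]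
  rfl

theorem mem_fib {v : HeightOneSpectrum (𝓞 K)} (w : Fib F v) (x : 𝓞 K) :
    algebraMap (𝓞 K) (𝓞 F) x ∈ w.1.asIdeal ↔ x ∈ v.asIdeal := by
  rw [fib_le w]
  rfl

theorem node_ext {v : HeightOneSpectrum (𝓞 K)} (w : Fib F v) {W : WeierstrassCurve (𝓞 K)}
    (hn : NodeAt v W) : NodeAt w.1 (W.map (algebraMap (𝓞 K) (𝓞 F))) := by
  refine ⟨(mem_fib w _).2 hn.1, (mem_fib w _).2 hn.2.1, (mem_fib w _).2 hn.2.2.1, ?_⟩
  rw [WeierstrassCurve.map_c₄, mem_fib w]
  exact hn.2.2.2

theorem tangent_ext {v : HeightOneSpectrum (𝓞 K)} (w : Fib F v) (W : WeierstrassCurve (𝓞 K)) :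
    TangentAt w.1 (W.map (algebraMap (𝓞 K) (𝓞 F))) ↔ TangentAt v W ∨ 2 ∣ fdeg w := by
  rw [tangent_iff, tangent_iff]
  exact root_ext (k := 𝓞 K ⧸ v.asIdeal) (l := 𝓞 F ⧸ w.1.asIdeal) (red v W).a₁ (red v W).a₂

/-- the reduction over the extension -/
theorem split_ext {E : WeierstrassCurve K} (hE : E.IsElliptic) {v : HeightOneSpectrum (𝓞 K)}
    {W : WeierstrassCurve (𝓞 K)} (hW : IsModel E W) (hn : NodeAt v W) (w : Fib F v) :
    Split (E.map (algebraMap K F)) w.1 ↔ Split E v ∨ 2 ∣ fdeg w := by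
  have hEF : (E.map (algebraMap K F)).IsElliptic := inferInstance
  rw [split_iff hEF (model_ext hW) (node_ext w hn), split_iff hE hW hn, tangent_ext]

theorem not_split_ext {E : WeierstrassCurve K} {v : HeightOneSpectrum (𝓞 K)}
    {W : WeierstrassCurve (𝓞 K)} (hW : IsModel E W) (hΔ : W.Δ ∉ v.asIdeal) (w : Fib F v) :
    ¬ Split (E.map (algebraMap K F)) w.1 := by
  refine not_split (model_ext hW) ?_
  rw [WeierstrassCurve.map_Δ, mem_fib w]
  exact hΔ

theorem semi_ext {E : WeierstrassCurve K} {v : HeightOneSpectrum (𝓞 K)} (h : SemiAt E v)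
    (w : Fib F v) : SemiAt (E.map (algebraMap K F)) w.1 := by
  obtain ⟨W, hW, h⟩ := h
  refine ⟨_, model_ext hW, ?_⟩
  rw [WeierstrassCurve.map_Δ, WeierstrassCurve.map_c₄, mem_fib w, mem_fib w]
  exact h

end extension

section count

variable {K : Type} [Field K] [NumberField K]

open Classical in
/-- the local number of the split primes depends on the residue degrees only -/
theorem exists_loc {E : WeierstrassCurve K} (hE : E.IsElliptic) (v : HeightOneSpectrum (𝓞 K))
    (hs : SemiAt E v) : ∃ g : ℕ → ℕ,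
      (∀ (F : Type) [Field F] [NumberField F] [Algebra K F] (w : Fib F v),
        (if Split (E.map (algebraMap K F)) w.1 then 1 else 0) = g (fdeg w)) ∧
      (if Split E v then 1 else 0) = g 1 ∧ ∀ n, Odd n → g n = g 1 := by
  obtain ⟨W, hW, h⟩ := hs
  by_cases hΔ : W.Δ ∈ v.asIdeal
  · have hc : W.c₄ ∉ v.asIdeal := h.resolve_left (fun h1 => h1 hΔ)
    obtain ⟨W', hW', hn⟩ := exists_nodeAt hW hΔ hc
    refine ⟨fun n => if Split E v ∨ 2 ∣ n then 1 else 0, fun F _ _ _ w => ?_, ?_, fun n hn => ?_⟩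
    · exact if_congr (split_ext hE hW' hn w) rfl rfl
    · refine if_congr ?_ rfl rfl
      constructor
      · exact Or.inl
      · rintro (h1 | h1)
        · exact h1
        · exact absurd h1 (by norm_num)
    · refine if_congr ?_ rfl rfl
      have h1 : ¬ 2 ∣ n := fun h => absurd hn (Nat.not_odd_iff_even.2 (even_iff_two_dvd.2 h))
      have h2 : ¬ 2 ∣ 1 := by norm_num
      tauto
  · exact ⟨fun _ => 0, fun F _ _ _ w => if_neg (not_split_ext hW hΔ w), if_neg (not_split hW hΔ),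
      fun _ _ => rfl⟩

theorem finite_bad {E : WeierstrassCurve K} (hE : E.IsElliptic) :
    ∃ S : Finset (HeightOneSpectrum (𝓞 K)), ∀ (F : Type) [Field F] [NumberField F] [Algebra K F]
      (w : HeightOneSpectrum (𝓞 F)), Split (E.map (algebraMap K F)) w → und w ∈ S := by
  obtain ⟨W, hW, hWΔ⟩ := exists_model E hE
  refine ⟨(finite_mem hWΔ).toFinset, fun F _ _ _ w hw => ?_⟩
  rw [Set.Finite.mem_toFinset]
  by_contra h
  exact not_split_ext hW h ⟨w, rfl⟩ hw

/-- the number of the primes of split multiplicative reduction -/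
noncomputable def ns (E : WeierstrassCurve K) : ℕ :=
  Nat.card {v : HeightOneSpectrum (𝓞 K) // Split E v}

open Classical in
theorem ns_eq {F : Type} [Field F] [NumberField F] [Algebra K F] (E : WeierstrassCurve K)
    (S : Finset (HeightOneSpectrum (𝓞 K)))
    (hS : ∀ w : HeightOneSpectrum (𝓞 F), Split (E.map (algebraMap K F)) w → und w ∈ S) :
    ns (E.map (algebraMap K F)) =
      ∑ v ∈ S, ∑ w : Fib F v, if Split (E.map (algebraMap K F)) w.1 then 1 else 0 := by
  let q : (v : S) × {w : Fib F v.1 // Split (E.map (algebraMap K F)) w.1} →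
      {w : HeightOneSpectrum (𝓞 F) // Split (E.map (algebraMap K F)) w} := fun x =>
    ⟨x.2.1.1, x.2.2⟩
  have hq : Function.Bijective q := by
    constructor
    · rintro ⟨⟨v, hv⟩, ⟨w, hw⟩, hs⟩ ⟨⟨v', hv'⟩, ⟨w', hw'⟩, hs'⟩ h
      have h1 : w = w' := congrArg Subtype.val h
      have h2 : v = v' := by
        have e1 : und w = v := hw
        have e2 : und w' = v' := hw'
        rw [← e1, ← e2, h1]
      subst h1
      subst h2
      rfl
    · rintro ⟨w, hw⟩
      exact ⟨⟨⟨und w, hS w hw⟩, ⟨w, rfl⟩, hw⟩, rfl⟩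
  have e1 := (Equiv.ofBijective q hq).symm
  unfold ns
  rw [Nat.card_congr e1, Nat.card_sigma, Finset.sum_coe_sort S
    (fun v => Nat.card {w : Fib F v // Split (E.map (algebraMap K F)) w.1})]
  refine Finset.sum_congr rfl fun v _ => ?_
  rw [Finset.sum_boole, Nat.card_eq_fintype_card, Fintype.card_subtype]
  simp

omit [NumberField K] in
open Classical in
theorem ns_self (E : WeierstrassCurve K) (S : Finset (HeightOneSpectrum (𝓞 K)))
    (hS : ∀ v : HeightOneSpectrum (𝓞 K), Split E v → v ∈ S) :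
    ns E = ∑ v ∈ S, if Split E v then 1 else 0 := by
  have e1 : {v : HeightOneSpectrum (𝓞 K) // Split E v} ≃ {v : S // Split E v.1} :=
    { toFun := fun v => ⟨⟨v.1, hS v.1 v.2⟩, v.2⟩
      invFun := fun v => ⟨v.1.1, v.2⟩
      left_inv := fun v => rfl
      right_inv := fun v => rfl }
  unfold ns
  rw [Nat.card_congr e1, ← Finset.sum_coe_sort S (fun v => if Split E v then 1 else 0),
    Finset.sum_boole, Nat.card_eq_fintype_card, Fintype.card_subtype]
  simp

variable {L : Type} [Field L] [NumberField L] [Algebra K L] [IsGalois K L]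
  {ι : Type} [Fintype ι] (Z : ι → Ext K) (f : ∀ i, (Z i).F →ₐ[K] L) (e : ι → ℤ) (m : ℕ)

theorem finite_bad_self {E : WeierstrassCurve K} {S : Finset (HeightOneSpectrum (𝓞 K))}
    (hS : ∀ (F : Type) [Field F] [NumberField F] [Algebra K F] (w : HeightOneSpectrum (𝓞 F)),
      Split (E.map (algebraMap K F)) w → und w ∈ S) (v : HeightOneSpectrum (𝓞 K))
    (hv : Split E v) : v ∈ S := by
  have h1 := hS K v (by
    have e1 : E.map (algebraMap K K) = E := E.map_id
    rw [e1]
    exact hv)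
  have e2 : und (K := K) v = v := HeightOneSpectrum.ext (Ideal.comap_id _)
  rwa [e2] at h1

theorem und_self (v : HeightOneSpectrum (𝓞 K)) : und (K := K) v = v := by
  apply HeightOneSpectrum.ext
  exact Ideal.comap_id _

/-- **The number of the primes of split multiplicative reduction.** -/
theorem split_rel (h : ∀ g : Gal(L/K), ∑ i, e i * fx (f i).fieldRange.fixingSubgroup g = m)
    {E : WeierstrassCurve K} (hE : E.IsElliptic) (hs : ∀ v, SemiAt E v) :
    ∑ i, e i * (ns (E.map (algebraMap K (Z i).F)) : ℤ) = m * ns E := by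
  classical
  obtain ⟨S, hS⟩ := finite_bad hE
  choose g hg hg1 _ using fun v => exists_loc hE v (hs v)
  have hS1 : ∀ v : HeightOneSpectrum (𝓞 K), Split E v → v ∈ S := by
    intro v hv
    have h1 := hS K v (by
      have e1 : E.map (algebraMap K K) = E := E.map_id
      rw [e1]
      exact hv)
    rwa [und_self] at h1
  have h1 : ∀ i, (ns (E.map (algebraMap K (Z i).F)) : ℤ) =
      ∑ v ∈ S, ∑ w : Fib (Z i).F v, (g v (fdeg w) : ℤ) := by
    intro i
    rw [ns_eq E S (hS (Z i).F)]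
    push_cast
    refine Finset.sum_congr rfl fun v _ => Finset.sum_congr rfl fun w _ => ?_
    rw [← hg v (Z i).F w]
    push_cast
    rfl
  have h2 : (ns E : ℤ) = ∑ v ∈ S, (g v 1 : ℤ) := by
    rw [ns_self E S hS1]
    push_cast
    refine Finset.sum_congr rfl fun v _ => ?_
    rw [← hg1 v]
    push_cast
    rfl
  calc ∑ i, e i * (ns (E.map (algebraMap K (Z i).F)) : ℤ)
      = ∑ v ∈ S, ∑ i, e i * ∑ w : Fib (Z i).F v, (g v (fdeg w) : ℤ) := by
        rw [Finset.sum_comm]
        refine Finset.sum_congr rfl fun i _ => ?_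
        rw [h1, Finset.mul_sum]
    _ = ∑ v ∈ S, (m : ℤ) * (g v 1 : ℤ) := by
        refine Finset.sum_congr rfl fun v _ => ?_
        exact fib_rel Z f e m h v fun n => (g v n : ℤ)
    _ = _ := by rw [h2, Finset.mul_sum]

open Classical in
/-- the exponent of the root number -/
noncomputable def rex (E : WeierstrassCurve K) : ℕ := ns E + Fintype.card (InfinitePlace K)

/-- **The root numbers.** -/
theorem rex_rel (h : ∀ g : Gal(L/K), ∑ i, e i * fx (f i).fieldRange.fixingSubgroup g = m)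
    {E : WeierstrassCurve K} (hE : E.IsElliptic) (hs : ∀ v, SemiAt E v) :
    ∑ i, e i * (rex (E.map (algebraMap K (Z i).F)) : ℤ) = m * rex E := by
  classical
  have h1 := split_rel Z f e m h hE hs
  have h2 := inf_rel Z f e m h
  unfold rex
  push_cast
  rw [mul_add, ← h1]
  simp only [mul_add, Finset.sum_add_distrib]
  congr 1

end count

end Pool.Agent.R333.BR
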