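import Pool.Agent.R333.BR.Rank
import Pool.Agent.R433.MD.Fiber
import Mathlib.RingTheory.Invariant.Basic

/-! Homomorphisms of rings of integers that agree on a subring are conjugate; fixed points of
endomorphisms (at all primes, also the ramified ones) and permutation characters. -/

set_option autoImplicit false

namespace Pool.Agent.R333.BR

open NumberField Polynomial
open Pool.Agent.R433.MD (fx)

section conj

variable {K L : Type} [Field K] [NumberField K] [Field L] [NumberField L] [Algebra K L]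

/-- the action on the integers -/
noncomputable def ri (σ : Gal(L/K)) : 𝓞 L →+* 𝓞 L := RingOfIntegers.mapRingHom (σ : L →+* L)

omit [NumberField K] [NumberField L] in
theorem ri_coe (σ : Gal(L/K)) (x : 𝓞 L) : ((ri σ x : 𝓞 L) : L) = σ (x : L) := rfl

omit [NumberField K] [NumberField L] in
theorem ri_one : ri (1 : Gal(L/K)) = RingHom.id _ := rfl

omit [NumberField K] [NumberField L] in
theorem ri_mul (σ τ : Gal(L/K)) : ri (σ * τ) = (ri σ).comp (ri τ) := rfl

variable [IsGalois K L]

theorem exists_tw (F : IntermediateField K L) {Ω : Type} [Field Ω] (ψ ψ' : 𝓞 L →+* Ω)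
    (h : ∀ x : 𝓞 L, (x : L) ∈ F → ψ x = ψ' x) :
    ∃ σ ∈ F.fixingSubgroup, ψ' = ψ.comp (ri σ) := by
  classical
  obtain ⟨r, b, hb⟩ := Module.Finite.exists_fin (R := ℤ) (M := 𝓞 L)
  let a : (𝓞 L)[X] := ∑ j : Fin r, monomial (j : ℕ) (b j)
  have ha : ∀ j : Fin r, a.coeff j = b j := by
    intro j
    simp only [a, finsetSum_coeff, coeff_monomial]
    rw [Finset.sum_eq_single j]
    · rw [if_pos rfl]
    · intro i _ hij
      rw [if_neg (fun e => hij (Fin.ext e))]
    · intro hj
      exact absurd (Finset.mem_univ j) hj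
  let H := F.fixingSubgroup
  let _ : Fintype H := Fintype.ofFinite _
  let P : (𝓞 L)[X][X] := ∏ σ : H, (X - C (a.map (ri (σ : Gal(L/K)))))
  have hP : ∀ τ : H, P.map (mapRingHom (ri (τ : Gal(L/K)))) = P := by
    intro τ
    simp only [P, Polynomial.map_prod, Polynomial.map_sub, map_X, map_C, coe_mapRingHom]
    rw [← Equiv.prod_comp (Equiv.mulLeft τ) (fun σ : H => (X - C (a.map (ri (σ : Gal(L/K))))))]
    refine Finset.prod_congr rfl fun σ _ => ?_
    rw [Polynomial.map_map]
    rfl
  have hc : ∀ k l : ℕ, (((P.coeff k).coeff l : 𝓞 L) : L) ∈ F := by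
    intro k l
    rw [← IsGalois.fixedField_fixingSubgroup F, IntermediateField.mem_fixedField_iff]
    intro τ hτ
    have h1 := congrArg (fun Q : (𝓞 L)[X][X] => (Q.coeff k).coeff l) (hP ⟨τ, hτ⟩)
    simp only [coeff_map, coe_mapRingHom] at h1
    rw [← ri_coe, h1]
  have hψ : P.map (mapRingHom ψ) = P.map (mapRingHom ψ') := by
    ext k l
    rw [coeff_map, coeff_map, coe_mapRingHom, coe_mapRingHom, coeff_map, coeff_map]
    exact h _ (hc k l)
  have h1 : (P.map (mapRingHom ψ')).eval (a.map ψ') = 0 := by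
    simp only [P, Polynomial.map_prod, Polynomial.map_sub, map_X, map_C, coe_mapRingHom,
      eval_prod, eval_sub, eval_X, eval_C]
    refine Finset.prod_eq_zero (Finset.mem_univ (1 : H)) ?_
    have e : a.map (ri ((1 : H) : Gal(L/K))) = a := Polynomial.map_id
    rw [e, sub_self]
  rw [← hψ] at h1
  simp only [P, Polynomial.map_prod, Polynomial.map_sub, map_X, map_C, coe_mapRingHom,
    eval_prod, eval_sub, eval_X, eval_C, Finset.prod_eq_zero_iff, Finset.mem_univ, true_and] at h1
  obtain ⟨σ, hσ⟩ := h1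
  refine ⟨σ, σ.2, ?_⟩
  have h2 : a.map ψ' = (a.map (ri (σ : Gal(L/K)))).map ψ := sub_eq_zero.1 hσ
  have h3 : ∀ j, ψ' (b j) = ψ (ri (σ : Gal(L/K)) (b j)) := by
    intro j
    have h4 := congrArg (fun Q : Polynomial Ω => Q.coeff (j : ℕ)) h2
    simp only [coeff_map, ha] at h4
    exact h4
  have h5 : ψ'.toAddMonoidHom.toIntLinearMap =
      (ψ.comp (ri (σ : Gal(L/K)))).toAddMonoidHom.toIntLinearMap := by
    refine LinearMap.ext_on_range (v := b) hb fun j => ?_
    exact h3 j
  refine RingHom.ext fun x => ?_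
  exact LinearMap.congr_fun h5 x

end conj

theorem exists_lift {A B Ω : Type} [CommRing A] [CommRing B] [IsDomain B] [Algebra A B]
    [Algebra.IsIntegral A B] [FaithfulSMul A B] [Field Ω] [IsAlgClosed Ω] (y : A →+* Ω) :
    ∃ Ψ : B →+* Ω, Ψ.comp (algebraMap A B) = y := by
  classical
  let p : Ideal A := RingHom.ker y
  have hp : p.IsPrime := RingHom.ker_isPrime y
  obtain ⟨Q, hQ, hQp⟩ := Ideal.exists_ideal_over_prime_of_isIntegral_of_isDomain (S := B) p
    (by rw [(RingHom.injective_iff_ker_eq_bot _).1 (FaithfulSMul.algebraMap_injective A B)]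
        exact bot_le)
  have : Q.LiesOver p := ⟨hQp.symm⟩
  let y' : A ⧸ p →+* Ω := Ideal.Quotient.lift p y (fun a ha => ha)
  have hy' : Function.Injective y' := RingHom.kerLift_injective y
  let _ : Algebra (A ⧸ p) Ω := y'.toAlgebra
  have : FaithfulSMul (A ⧸ p) Ω := (faithfulSMul_iff_algebraMap_injective _ _).2 hy'
  have : Algebra.IsIntegral (A ⧸ p) (B ⧸ Q) := inferInstance
  have : FaithfulSMul (A ⧸ p) (B ⧸ Q) := inferInstance
  have : IsDomain (A ⧸ p) := inferInstance
  have : IsDomain (B ⧸ Q) := inferInstance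
  have : Module.IsTorsionFree (A ⧸ p) (B ⧸ Q) := Module.isTorsionFree_iff_faithfulSMul.2 inferInstance
  have : Module.IsTorsionFree (A ⧸ p) Ω := Module.isTorsionFree_iff_faithfulSMul.2 inferInstance
  have : Algebra.IsAlgebraic (A ⧸ p) (B ⧸ Q) := Algebra.IsIntegral.isAlgebraic
  let Φ : B ⧸ Q →ₐ[A ⧸ p] Ω := IsAlgClosed.lift
  refine ⟨(Φ : B ⧸ Q →+* Ω).comp (Ideal.Quotient.mk Q), ?_⟩
  refine RingHom.ext fun x => ?_
  have h1 := Φ.commutes (Ideal.Quotient.mk p x)
  exact h1

/-- transitive actions and arbitrary maps -/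
theorem tw_count (H O : Type) [Group H] [Finite H] [MulAction H O] [MulAction.IsPretransitive H O]
    [Nonempty O] (f : O → O) : Nat.card {q : O × H // q.2 • q.1 = f q.1} = Nat.card H := by
  classical
  obtain ⟨x0⟩ := ‹Nonempty O›
  have : Finite O := Finite.of_surjective (fun h : H => h • x0) fun z =>
    MulAction.exists_smul_eq H x0 z
  let _ : Fintype O := Fintype.ofFinite _
  let _ : Fintype H := Fintype.ofFinite _
  have h1 : ∀ x z : O, Nat.card O * Nat.card {h : H // h • x = z} = Nat.card H := by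
    intro x z
    have h2 : ∀ z' : O, Nat.card {h : H // h • x = z'} = Nat.card {h : H // h • x = z} := by
      intro z'
      obtain ⟨k, hk⟩ := MulAction.exists_smul_eq H z' z
      refine Nat.card_congr (Equiv.subtypeEquiv (Equiv.mulLeft k) fun h => ?_)
      rw [Equiv.coe_mulLeft, mul_smul, ← hk]
      exact (smul_left_cancel_iff k).symm
    have h3 : Nat.card H = ∑ z' : O, Nat.card {h : H // h • x = z'} := by
      rw [← Nat.card_sigma]
      exact Nat.card_congr (Equiv.sigmaFiberEquiv fun h : H => h • x).symm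
    rw [h3, Finset.sum_congr rfl fun z' _ => h2 z', Finset.sum_const, Finset.card_univ,
      smul_eq_mul, Nat.card_eq_fintype_card]
  have h2 : Nat.card {q : O × H // q.2 • q.1 = f q.1} = ∑ x : O, Nat.card {h : H // h • x = f x} := by
    rw [← Nat.card_sigma]
    refine Nat.card_congr
      { toFun := fun q => ⟨q.1.1, q.1.2, q.2⟩
        invFun := fun q => ⟨(q.1, q.2.1), q.2.2⟩
        left_inv := fun q => rfl
        right_inv := fun q => rfl }
  have h3 : Nat.card O * Nat.card {q : O × H // q.2 • q.1 = f q.1} = Nat.card O * Nat.card H := by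
    rw [h2, Finset.mul_sum, Finset.sum_congr rfl fun x _ => h1 x (f x), Finset.sum_const,
      Finset.card_univ, smul_eq_mul, Nat.card_eq_fintype_card (α := O)]
  have : Nonempty O := ⟨x0⟩
  exact Nat.eq_of_mul_eq_mul_left Nat.card_pos h3

end Pool.Agent.R333.BR
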